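import Pool.Agent.D0H93.MT.Core

/-!
# Endomorphisms of the second tensor power and endomorphisms of the space of matrices
-/

set_option autoImplicit false
set_option linter.unusedSectionVars false
set_option linter.unusedVariables false

open Matrix

namespace Pool.Agent.D0H93.MT

variable {ι : Type} [Fintype ι] [DecidableEq ι] {K : Type} [Field K]

/-- The endomorphism of the first tensor power given by `z`. -/
def one' (z : Matrix ι ι K) : Matrix (Fin 1 → ι) (Fin 1 → ι) K :=
  Matrix.of fun I J => z (I 0) (J 0)

theorem tder_two_mul (x : Matrix ι ι K) (c : Matrix (Fin 2 → ι) (Fin 2 → ι) K) (I J : Fin 2 → ι) :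
    (tder 2 x * c) I J = ∑ j, x (I 0) j * c (Function.update I 0 j) J +
      ∑ j, x (I 1) j * c (Function.update I 1 j) J := by
  rw [tder_eq, Fin.sum_univ_two, add_mul, Matrix.add_apply, fac_mul, fac_mul]

theorem mul_tder_two (x : Matrix ι ι K) (c : Matrix (Fin 2 → ι) (Fin 2 → ι) K) (I J : Fin 2 → ι) :
    (c * tder 2 x) I J = ∑ j, c I (Function.update J 0 j) * x j (J 0) +
      ∑ j, c I (Function.update J 1 j) * x j (J 1) := by
  rw [tder_eq, Fin.sum_univ_two, mul_add, Matrix.add_apply, mul_fac, mul_fac]

theorem single_mul_eq (x : Matrix ι ι K) (a b : ι) :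
    Matrix.single a b (1 : K) * x = ∑ j, x b j • Matrix.single a j (1 : K) := by
  ext i k
  rw [Matrix.sum_apply]
  simp only [Matrix.smul_apply, smul_eq_mul]
  by_cases h : i = a
  · subst h
    rw [Matrix.single_mul_apply_same, one_mul, Finset.sum_eq_single k]
    · simp
    · intro j _ hj
      simp [hj]
    · intro h; exact absurd (Finset.mem_univ _) h
  · rw [Matrix.single_mul_apply_of_ne _ _ _ _ _ h]
    refine (Finset.sum_eq_zero fun j _ => ?_).symm
    simp [Ne.symm h]

theorem mul_single_eq (x : Matrix ι ι K) (a b : ι) :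
    x * Matrix.single a b (1 : K) = ∑ j, x j a • Matrix.single j b (1 : K) := by
  ext i k
  rw [Matrix.sum_apply]
  simp only [Matrix.smul_apply, smul_eq_mul]
  by_cases h : k = b
  · subst h
    rw [Matrix.mul_single_apply_same, mul_one, Finset.sum_eq_single i]
    · simp
    · intro j _ hj
      simp [hj]
    · intro h; exact absurd (Finset.mem_univ _) h
  · rw [Matrix.mul_single_apply_of_ne _ _ _ _ _ h]
    refine (Finset.sum_eq_zero fun j _ => ?_).symm
    simp [Ne.symm h]

theorem kills_tens_aux (x : Matrix ι ι K) (φ : Matrix ι ι K →ₗ[K] Matrix ι ι K) (I J : Fin 2 → ι) :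
    (tder 2 x * tens φ) I J = (tens φ * tder 2 x) I J ↔
      (x * φ (Matrix.single (J 0) (I 1) 1) - φ (Matrix.single (J 0) (I 1) 1) * x) (I 0) (J 1) =
        φ (x * Matrix.single (J 0) (I 1) 1 - Matrix.single (J 0) (I 1) 1 * x) (I 0) (J 1) := by
  rw [tder_two_mul, mul_tder_two, map_sub, Matrix.sub_apply, Matrix.sub_apply, single_mul_eq,
    mul_single_eq, map_sum, map_sum, Matrix.sum_apply, Matrix.sum_apply, Matrix.mul_apply,
    Matrix.mul_apply]
  simp only [tens, Matrix.of_apply, map_smul, Matrix.smul_apply, smul_eq_mul,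
    Function.update_self, ne_eq, one_ne_zero, not_false_eq_true, Function.update_of_ne,
    zero_ne_one]
  have e : (∑ j, φ (Matrix.single j (I 1) 1) (I 0) (J 1) * x j (J 0)) =
      ∑ j, x j (J 0) * φ (Matrix.single j (I 1) 1) (I 0) (J 1) :=
    Finset.sum_congr rfl fun j _ => mul_comm _ _
  rw [e]
  constructor
  · intro h
    rw [sub_eq_sub_iff_add_eq_add]
    rw [h]
  · intro h
    rw [sub_eq_sub_iff_add_eq_add] at h
    rw [h]

/-- The endomorphism `tens φ` is killed by `x` if and only if `φ` commutes with the bracket. -/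
theorem kills_tens {x : Matrix ι ι K} {φ : Matrix ι ι K →ₗ[K] Matrix ι ι K} :
    Kills x (tens φ) ↔ ∀ y, φ (x * y - y * x) = x * φ y - φ y * x := by
  unfold Kills
  constructor
  · intro h y
    have key : ∀ a b, φ (x * Matrix.single a b 1 - Matrix.single a b 1 * x) =
        x * φ (Matrix.single a b 1) - φ (Matrix.single a b 1) * x := by
      intro a b
      ext i j
      have := (kills_tens_aux x φ ![i, b] ![a, j]).1 (by rw [h])
      simpa using this.symm
    have hy : y = ∑ a, ∑ b, y a b • Matrix.single a b (1 : K) := by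
      conv_lhs => rw [Matrix.matrix_eq_sum_single y]
      refine Finset.sum_congr rfl fun a _ => Finset.sum_congr rfl fun b _ => ?_
      rw [Matrix.smul_single, smul_eq_mul, mul_one]
    rw [hy]
    simp only [Finset.mul_sum, Finset.sum_mul, map_sum, map_sub, ← Finset.sum_sub_distrib,
      mul_smul_comm, smul_mul_assoc, map_smul, ← smul_sub]
    refine Finset.sum_congr rfl fun a _ => Finset.sum_congr rfl fun b _ => ?_
    rw [← map_sub, key]
  · intro h
    ext I J
    rw [kills_tens_aux, h]

theorem kills_mulLeft {x z : Matrix ι ι K} :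
    Kills x (tens (LinearMap.mulLeft K z)) ↔ x * z = z * x := by
  rw [kills_tens]
  simp only [LinearMap.mulLeft_apply]
  constructor
  · intro h
    have := h 1
    rw [mul_one, one_mul, sub_self, mul_zero, mul_one] at this
    exact (sub_eq_zero.1 this.symm)
  · intro h y
    rw [mul_sub, ← mul_assoc, ← h, mul_assoc, mul_assoc]

theorem tder_one' (x : Matrix ι ι K) : tder 1 x = one' x := by
  ext I J
  simp only [tder, one', Matrix.of_apply, Finset.univ_unique, Fin.default_eq_zero,
    Finset.sum_singleton]
  rw [if_pos]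
  intro l hl
  exact absurd (Subsingleton.elim _ _) hl

theorem one'_mul (x y : Matrix ι ι K) : one' x * one' y = one' (x * y) := by
  rw [← tder_one' x]
  ext I J
  rw [tder_eq, Finset.univ_unique, Finset.sum_singleton, fac_mul]
  simp only [one', Matrix.of_apply, Fin.default_eq_zero, Function.update_self, Matrix.mul_apply]

theorem one'_injective {x y : Matrix ι ι K} (h : one' x = one' y) : x = y := by
  ext i j
  exact congrFun (congrFun h fun _ => i) fun _ => j

theorem kills_one' {x z : Matrix ι ι K} : Kills x (one' z) ↔ x * z = z * x := by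
  unfold Kills
  rw [tder_one', one'_mul, one'_mul]
  exact ⟨one'_injective, fun h => by rw [h]⟩

/-- An element which kills `rankOne T Q` multiplies the bilinear form `Q` by a scalar. -/
theorem multiplier {T Q x : Matrix ι ι K} (hT : T ≠ 0) (h : Kills x (rankOne T Q)) :
    ∃ μ : K, xᵀ * Q + Q * x = μ • Q := by
  obtain ⟨i, j, hij⟩ : ∃ i j, T i j ≠ 0 := by
    by_contra hne
    push Not at hne
    exact hT (Matrix.ext hne)
  refine ⟨(∑ k, x i k * T k j + ∑ k, x j k * T i k) / T i j, ?_⟩
  ext a b
  have h1 := congrFun (congrFun h ![i, j]) ![a, b]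
  rw [tder_two_mul, mul_tder_two] at h1
  simp only [rankOne, Matrix.of_apply, Function.update_self, ne_eq, one_ne_zero, not_false_eq_true,
    Function.update_of_ne, zero_ne_one, Matrix.cons_val_zero, Matrix.cons_val_one] at h1
  simp only [Matrix.add_apply, Matrix.mul_apply, Matrix.transpose_apply, Matrix.smul_apply,
    smul_eq_mul]
  have e1 : (∑ k, x i k * (T k j * Q a b)) = (∑ k, x i k * T k j) * Q a b := by
    rw [Finset.sum_mul]; exact Finset.sum_congr rfl fun _ _ => by ring
  have e2 : (∑ k, x j k * (T i k * Q a b)) = (∑ k, x j k * T i k) * Q a b := by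
    rw [Finset.sum_mul]; exact Finset.sum_congr rfl fun _ _ => by ring
  have e3 : (∑ k, T i j * Q k b * x k a) = T i j * ∑ k, x k a * Q k b := by
    rw [Finset.mul_sum]; exact Finset.sum_congr rfl fun _ _ => by ring
  have e4 : (∑ k, T i j * Q a k * x k b) = T i j * ∑ k, Q a k * x k b := by
    rw [Finset.mul_sum]; exact Finset.sum_congr rfl fun _ _ => by ring
  rw [e1, e2, e3, e4, ← add_mul, ← mul_add] at h1
  rw [div_mul_eq_mul_div, h1, mul_div_cancel_left₀ _ hij]

end Pool.Agent.D0H93.MT
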