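import Pool.Agent.D0H93.MT.Core
import Pool.Agent.D0H93.MT.Two
import Pool.Agent.D0H93.MT.Der

/-!
# Endomorphisms which are fixed by a subgroup of finite index

Let a group act on `V = K ^ ι`, `K` of characteristic zero. An endomorphism of a tensor power of `V`
which is killed by the annihilator of all endomorphisms of all tensor powers that are fixed by subgroups of
finite index is itself fixed by a subgroup of finite index.
-/

set_option autoImplicit false
set_option linter.unusedSectionVars false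
set_option linter.unusedVariables false

open Matrix MvPolynomial

namespace Pool.Agent.D0H93.MT

variable {ι : Type} [Fintype ι] [DecidableEq ι] {K : Type} [Field K] {Γ : Type} [Group Γ]

section Zariski

variable (ρ : Γ →* (Matrix ι ι K)ˣ)

/-- The variables: the entries of a matrix and of its inverse. -/
abbrev Var (ι : Type) := (ι × ι) ⊕ (ι × ι)

/-- The values of the variables at `g`. -/
def val (g : Γ) : Var ι → K :=
  Sum.elim (fun p => (ρ g : Matrix ι ι K) p.1 p.2) (fun p => ((ρ g)⁻¹ : (Matrix ι ι K)ˣ).1 p.1 p.2)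

/-- Evaluation at `g`. -/
noncomputable def ev (g : Γ) : MvPolynomial (Var ι) K →ₐ[K] K := MvPolynomial.aeval (val ρ g)

/-- The ideal of the polynomials which vanish on the subgroup. -/
noncomputable def idl (Δ : Subgroup Γ) : Ideal (MvPolynomial (Var ι) K) :=
  ⨅ g : Δ, RingHom.ker (ev ρ g.1)

theorem mem_idl {Δ : Subgroup Γ} {p : MvPolynomial (Var ι) K} :
    p ∈ idl ρ Δ ↔ ∀ g ∈ Δ, ev ρ g p = 0 := by
  simp [idl, RingHom.mem_ker]

theorem idl_anti {Δ Δ' : Subgroup Γ} (h : Δ ≤ Δ') : idl ρ Δ' ≤ idl ρ Δ := fun p hp =>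
  (mem_idl ρ).2 fun g hg => (mem_idl ρ).1 hp g (h hg)

/-- There is a subgroup of finite index with the smallest Zariski closure. -/
theorem exists_min : ∃ Δ₀ : Subgroup Γ, Δ₀.FiniteIndex ∧
    ∀ Δ : Subgroup Γ, Δ.FiniteIndex → idl ρ Δ ≤ idl ρ Δ₀ := by
  let S : Set (Ideal (MvPolynomial (Var ι) K)) := {I | ∃ Δ : Subgroup Γ, Δ.FiniteIndex ∧ I = idl ρ Δ}
  have hne : S.Nonempty := ⟨_, ⊤, inferInstance, rfl⟩
  obtain ⟨I, ⟨Δ₀, h₀, rfl⟩, hmax⟩ := WellFounded.has_min
    (wellFounded_gt : WellFounded fun (I J : Ideal (MvPolynomial (Var ι) K)) => I > J) S hne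
  refine ⟨Δ₀, h₀, fun Δ hΔ => ?_⟩
  have h1 : idl ρ Δ₀ ≤ idl ρ (Δ ⊓ Δ₀) := idl_anti ρ inf_le_right
  have h2 : (Δ ⊓ Δ₀).FiniteIndex := inferInstance
  have h3 := hmax _ ⟨_, h2, rfl⟩
  have h4 : idl ρ (Δ ⊓ Δ₀) = idl ρ Δ₀ := by
    by_contra hne
    exact h3 (lt_of_le_of_ne h1 fun h => hne h.symm)
  rw [← h4]
  exact idl_anti ρ inf_le_left

/-- The generic matrix. -/
noncomputable def X1 (ι K : Type) [Field K] : Matrix ι ι (MvPolynomial (Var ι) K) :=
  Matrix.of fun i j => X (Sum.inl (i, j))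

/-- The inverse of the generic matrix. -/
noncomputable def X2 (ι K : Type) [Field K] : Matrix ι ι (MvPolynomial (Var ι) K) :=
  Matrix.of fun i j => X (Sum.inr (i, j))

theorem X1_ev (g : Γ) : (X1 ι K).map (ev ρ g) = (ρ g : Matrix ι ι K) := by
  ext i j
  simp [X1, ev, val]

theorem X2_ev (g : Γ) : (X2 ι K).map (ev ρ g) = ((ρ g)⁻¹ : (Matrix ι ι K)ˣ).1 := by
  ext i j
  simp [X2, ev, val]

theorem idl_radical (Δ : Subgroup Γ) : (idl ρ Δ).radical = idl ρ Δ := by
  refine le_antisymm ?_ Ideal.le_radical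
  intro p hp
  obtain ⟨k, hk⟩ := hp
  refine (mem_idl ρ).2 fun g hg => ?_
  have := (mem_idl ρ).1 hk g hg
  rw [map_pow] at this
  exact IsReduced.eq_zero _ ⟨k, this⟩

/-- Leibniz' rule for matrices. -/
theorem map_der_mul {F : Type} [Field F] [Algebra K F] (D : Derivation K F F) {m m' m'' : Type}
    [Fintype m'] (M : Matrix m m' F) (N : Matrix m' m'' F) :
    (M * N).map D = M.map D * N + M * N.map D := by
  ext i j
  simp only [Matrix.map_apply, Matrix.mul_apply, map_sum, Matrix.add_apply, Derivation.leibniz,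
    smul_eq_mul, ← Finset.sum_add_distrib]
  exact Finset.sum_congr rfl fun k _ => by ring

theorem map_der_bc {F : Type} [Field F] [Algebra K F] (D : Derivation K F F) {m m' : Type}
    (M : Matrix m m' K) : (bc F M).map D = 0 := by
  ext i j
  simp

theorem map_der_one {F : Type} [Field F] [Algebra K F] (D : Derivation K F F) {m : Type}
    [DecidableEq m] : (1 : Matrix m m F).map D = 0 := by
  ext i j
  by_cases h : i = j
  · subst h; simp
  · simp [Matrix.one_apply_ne h]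

theorem der_prod {F : Type} [Field F] [Algebra K F] (D : Derivation K F F) {n : ℕ}
    (f : Fin n → F) : D (∏ k, f k) = ∑ k, (∏ m ∈ Finset.univ.erase k, f m) * D (f k) := by
  have : ∀ s : Finset (Fin n), D (∏ k ∈ s, f k) = ∑ k ∈ s, (∏ m ∈ s.erase k, f m) * D (f k) := by
    intro s
    induction s using Finset.induction_on with
    | empty => simp
    | insert a s ha ih =>
      rw [Finset.prod_insert ha, Derivation.leibniz, ih, Finset.sum_insert ha,
        Finset.erase_insert ha, smul_eq_mul, smul_eq_mul, add_comm, Finset.mul_sum]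
      congr 1
      refine Finset.sum_congr rfl fun k hk => ?_
      have hka : k ≠ a := fun h => ha (h ▸ hk)
      rw [Finset.erase_insert_of_ne hka.symm, Finset.prod_insert (fun h => ha (Finset.mem_of_mem_erase h))]
      ring
  exact this _

/-- The derivative of `ξ ^ ⊗n`. -/
theorem map_der_tpow {F : Type} [Field F] [Algebra K F] (D : Derivation K F F) (n : ℕ)
    {ξ ξ' : Matrix ι ι F} (h : ξ * ξ' = 1) :
    (tpow n ξ).map D = tpow n ξ * tder n (ξ' * ξ.map D) := by
  set y := ξ' * ξ.map D with hy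
  have hy' : ξ * y = ξ.map D := by rw [hy, ← mul_assoc, h, one_mul]
  ext I J
  rw [tder_eq, Finset.mul_sum, Matrix.sum_apply, Matrix.map_apply]
  simp only [tpow, Matrix.of_apply]
  rw [der_prod]
  refine Finset.sum_congr rfl fun k _ => ?_
  rw [show (Matrix.of fun I J : Fin n → ι => ∏ k, ξ (I k) (J k)) = tpow n ξ from rfl, mul_fac]
  have e1 : ∀ j, tpow n ξ I (Function.update J k j) * y j (J k) =
      (∏ m ∈ Finset.univ.erase k, ξ (I m) (J m)) * (ξ (I k) j * y j (J k)) := by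
    intro j
    simp only [tpow, Matrix.of_apply]
    rw [← Finset.mul_prod_erase Finset.univ _ (Finset.mem_univ k), Function.update_self,
      Finset.prod_congr rfl fun m hm => by
        rw [Function.update_of_ne (Finset.ne_of_mem_erase hm)]]
    ring
  rw [Finset.sum_congr rfl fun j _ => e1 j, ← Finset.mul_sum, ← Matrix.mul_apply, hy']
  rfl

section Prime

variable (P : Ideal (MvPolynomial (Var ι) K)) [P.IsPrime]

/-- The field of functions on the subvariety of `P`. -/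
abbrev Fn : Type := FractionRing (MvPolynomial (Var ι) K ⧸ P)

/-- The value at the generic point. -/
noncomputable def gen : MvPolynomial (Var ι) K →ₐ[K] Fn P :=
  (IsScalarTower.toAlgHom K (MvPolynomial (Var ι) K ⧸ P) (Fn P)).comp (Ideal.Quotient.mkₐ K P)

theorem gen_eq_zero {p : MvPolynomial (Var ι) K} : gen P p = 0 ↔ p ∈ P := by
  rw [gen, AlgHom.comp_apply, IsScalarTower.coe_toAlgHom', Ideal.Quotient.mkₐ_eq_mk,
    IsFractionRing.to_map_eq_zero_iff, Ideal.Quotient.eq_zero_iff_mem]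

variable {P} {Δ₀ : Subgroup Γ} (hmin : ∀ Δ : Subgroup Γ, Δ.FiniteIndex → idl ρ Δ ≤ idl ρ Δ₀)
  (hP : idl ρ Δ₀ ≤ P)

include hmin hP in
/-- Identities on a subgroup of finite index hold at the generic point. -/
theorem gen_matrix_eq {m m' : Type} {M N : Matrix m m' (MvPolynomial (Var ι) K)}
    {Δ : Subgroup Γ} (hΔ : Δ.FiniteIndex) (h : ∀ g ∈ Δ, M.map (ev ρ g) = N.map (ev ρ g)) :
    M.map (gen P) = N.map (gen P) := by
  ext i j
  rw [Matrix.map_apply, Matrix.map_apply, ← sub_eq_zero, ← map_sub, gen_eq_zero]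
  refine hP (hmin Δ hΔ ((mem_idl ρ).2 fun g hg => ?_))
  rw [map_sub, sub_eq_zero]
  exact congrFun (congrFun (h g hg) i) j

theorem map_tpow_algHom {A B : Type} [CommRing A] [CommRing B] [Algebra K A] [Algebra K B] (n : ℕ)
    (f : A →ₐ[K] B) (x : Matrix ι ι A) : tpow n (x.map f) = (tpow n x).map f :=
  tpow_map n f.toRingHom x

theorem map_mul_algHom {A B : Type} [CommRing A] [CommRing B] [Algebra K A] [Algebra K B]
    {m m' m'' : Type} [Fintype m'] (f : A →ₐ[K] B) (x : Matrix m m' A) (y : Matrix m' m'' A) :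
    (x * y).map f = x.map f * y.map f :=
  Matrix.map_mul (f := f.toRingHom)

theorem map_const {A B : Type} [CommRing A] [CommRing B] [Algebra K A] [Algebra K B]
    {m m' : Type} (f : A →ₐ[K] B) (c : Matrix m m' K) :
    (c.map (algebraMap K A)).map f = c.map (algebraMap K B) := by
  ext i j
  simp

theorem ev_const {m m' : Type} (g : Γ) (c : Matrix m m' K) :
    (c.map (algebraMap K (MvPolynomial (Var ι) K))).map (ev ρ g) = c := by
  rw [map_const]
  ext i j
  simp

/-- The orbit of `c`, as a matrix of polynomials. -/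
noncomputable def orbP {n : ℕ} (c : Matrix (Fin n → ι) (Fin n → ι) K) :
    Matrix (Fin n → ι) (Fin n → ι) (MvPolynomial (Var ι) K) :=
  tpow n (X1 ι K) * c.map (algebraMap K (MvPolynomial (Var ι) K)) * tpow n (X2 ι K)

theorem orbP_ev {n : ℕ} (c : Matrix (Fin n → ι) (Fin n → ι) K) (g : Γ) :
    (orbP c).map (ev ρ g) = tpow n (ρ g : Matrix ι ι K) * c * tpow n ((ρ g)⁻¹ : (Matrix ι ι K)ˣ).1 := by
  rw [orbP, map_mul_algHom, map_mul_algHom, ev_const, ← map_tpow_algHom, ← map_tpow_algHom, X1_ev,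
    X2_ev]

include hmin hP in
theorem isAlgebraic_gen [CharZero K] {n : ℕ} {c : Matrix (Fin n → ι) (Fin n → ι) K}
    (hc : ∀ x ∈ ann (IsTate ρ), Kills x c) (I J : Fin n → ι) :
    IsAlgebraic K (gen P (orbP c I J)) := by
  by_contra htr
  have : Algebra.EssFiniteType K (Fn P) := inferInstance
  obtain ⟨D, hD⟩ := exists_derivation htr
  apply hD
  set ξ := (X1 ι K).map (gen P) with hξ
  set ξ' := (X2 ι K).map (gen P) with hξ'
  have htop : (⊤ : Subgroup Γ).FiniteIndex := inferInstance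
  have e1 : ξ * ξ' = 1 := by
    rw [hξ, hξ', ← map_mul_algHom, gen_matrix_eq ρ hmin hP (N := 1) htop]
    · ext i j
      by_cases h : i = j
      · subst h; simp
      · simp [Matrix.one_apply_ne h]
    · intro g _
      rw [map_mul_algHom, X1_ev, X2_ev, Units.mul_inv]
      ext i j
      by_cases h : i = j
      · subst h; simp
      · simp [Matrix.one_apply_ne h]
  have e2 : ξ' * ξ = 1 := mul_eq_one_comm.1 e1
  have f1 : ∀ m, tpow m ξ * tpow m ξ' = 1 := fun m => by rw [← tpow_mul, e1, tpow_one]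
  have f2 : ∀ m, tpow m ξ' * tpow m ξ = 1 := fun m => by rw [← tpow_mul, e2, tpow_one]
  set x := ξ' * ξ.map D with hx
  have hxm : x ∈ ann (ext (Fn P) (IsTate ρ)) := by
    rintro m _ ⟨c₀, ⟨Δ, hΔ, hfix⟩, rfl⟩
    have h1 : tpow m ξ * bc (Fn P) c₀ = bc (Fn P) c₀ * tpow m ξ := by
      have := gen_matrix_eq ρ hmin hP
        (M := tpow m (X1 ι K) * c₀.map (algebraMap K (MvPolynomial (Var ι) K)))
        (N := c₀.map (algebraMap K (MvPolynomial (Var ι) K)) * tpow m (X1 ι K)) hΔ (by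
          intro g hg
          rw [map_mul_algHom, map_mul_algHom, ev_const, ← map_tpow_algHom, X1_ev]
          exact hfix g hg)
      rwa [map_mul_algHom, map_mul_algHom, map_const, ← map_tpow_algHom] at this
    have h2 := congrArg (fun M => M.map D) h1
    simp only [map_der_mul, map_der_bc, mul_zero, zero_mul, add_zero, zero_add] at h2
    rw [map_der_tpow D m e1, ← hx] at h2
    have h3 := congrArg (fun M => tpow m ξ' * M) h2
    have h4 : tpow m ξ' * (tpow m ξ * tder m x * bc (Fn P) c₀) = tder m x * bc (Fn P) c₀ := by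
      rw [← mul_assoc, ← mul_assoc, f2, one_mul]
    have h5 : tpow m ξ' * (bc (Fn P) c₀ * (tpow m ξ * tder m x)) = bc (Fn P) c₀ * tder m x := by
      rw [← mul_assoc (bc (Fn P) c₀), ← h1, ← mul_assoc, ← mul_assoc, f2, one_mul]
    rw [h4, h5] at h3
    exact h3
  have hk : Kills x (bc (Fn P) c) := kills_co.2 fun f => hc _ (mem_ann_ext.1 hxm f)
  have hE : (orbP c).map (gen P) = tpow n ξ * bc (Fn P) c * tpow n ξ' := by
    rw [orbP, map_mul_algHom, map_mul_algHom, map_const, ← map_tpow_algHom, ← map_tpow_algHom]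
  have hD1 : (tpow n ξ').map D = - (tder n x * tpow n ξ') := by
    have h1 := congrArg (fun M => M.map D) (f1 n)
    simp only [map_der_mul, map_der_one] at h1
    rw [map_der_tpow D n e1, ← hx] at h1
    have h2 := congrArg (fun M => tpow n ξ' * M) h1
    simp only [mul_add, mul_zero] at h2
    rw [← mul_assoc, ← mul_assoc, ← mul_assoc, f2, one_mul, one_mul] at h2
    exact (neg_eq_of_add_eq_zero_right h2).symm
  have hDE : ((orbP c).map (gen P)).map D = 0 := by
    rw [hE, map_der_mul, map_der_mul, map_der_bc, mul_zero, add_zero, map_der_tpow D n e1, ← hx, hD1,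
      mul_neg, ← sub_eq_add_neg, sub_eq_zero, mul_assoc (tpow n ξ) (tder n x) (bc (Fn P) c), hk]
    simp only [mul_assoc]
  exact congrFun (congrFun hDE I) J

end Prime

/-- The action of the group on the endomorphisms of the `n`-th tensor power. -/
@[reducible] def act (n : ℕ) : MulAction Γ (Matrix (Fin n → ι) (Fin n → ι) K) where
  smul g c := tpow n (ρ g : Matrix ι ι K) * c * tpow n ((ρ g)⁻¹ : (Matrix ι ι K)ˣ).1
  one_smul c := by
    show tpow n (ρ 1 : Matrix ι ι K) * c * tpow n ((ρ 1)⁻¹ : (Matrix ι ι K)ˣ).1 = c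
    rw [map_one, inv_one, Units.val_one, tpow_one, one_mul, mul_one]
  mul_smul g h c := by
    show tpow n (ρ (g * h) : Matrix ι ι K) * c * tpow n ((ρ (g * h))⁻¹ : (Matrix ι ι K)ˣ).1 =
      tpow n (ρ g : Matrix ι ι K) * (tpow n (ρ h : Matrix ι ι K) * c *
        tpow n ((ρ h)⁻¹ : (Matrix ι ι K)ˣ).1) * tpow n ((ρ g)⁻¹ : (Matrix ι ι K)ˣ).1
    rw [map_mul, _root_.mul_inv_rev, Units.val_mul, Units.val_mul, tpow_mul, tpow_mul]
    simp only [mul_assoc]

theorem finite_orbit [CharZero K] {n : ℕ} {c : Matrix (Fin n → ι) (Fin n → ι) K}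
    (hc : ∀ x ∈ ann (IsTate ρ), Kills x c) {Δ₀ : Subgroup Γ}
    (hmin : ∀ Δ : Subgroup Γ, Δ.FiniteIndex → idl ρ Δ ≤ idl ρ Δ₀) :
    {M | ∃ g ∈ Δ₀, M = (orbP c).map (ev ρ g)}.Finite := by
  classical
  have hfinP := (idl ρ Δ₀).finite_minimalPrimes_of_isNoetherianRing
  have key : ∀ I J, ∃ q : Polynomial K, q ≠ 0 ∧ ∀ g ∈ Δ₀, Polynomial.eval (ev ρ g (orbP c I J)) q = 0 := by
    intro I J
    have h1 : ∀ P ∈ (idl ρ Δ₀).minimalPrimes, ∃ q : Polynomial K, q ≠ 0 ∧
        Polynomial.aeval (orbP c I J) q ∈ P := by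
      intro P hP
      have hPp : P.IsPrime := hP.1.1
      obtain ⟨q, hq0, hq⟩ := isAlgebraic_gen ρ hmin hP.1.2 hc I J
      refine ⟨q, hq0, ?_⟩
      rw [Polynomial.aeval_algHom_apply, gen_eq_zero] at hq
      exact hq
    choose! q hq0 hq using h1
    refine ⟨∏ P ∈ hfinP.toFinset, q P, Finset.prod_ne_zero_iff.2 fun P hP =>
      hq0 P (hfinP.mem_toFinset.1 hP), ?_⟩
    have hrad : ∀ p : MvPolynomial (Var ι) K, (∀ P ∈ (idl ρ Δ₀).minimalPrimes, p ∈ P) →
        p ∈ idl ρ Δ₀ := by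
      intro p hp
      have h2 : p ∈ (idl ρ Δ₀).radical := by
        rw [← Ideal.sInf_minimalPrimes]
        exact Submodule.mem_sInf.2 fun P hP => hp P hP
      rwa [idl_radical] at h2
    have hmem : Polynomial.aeval (orbP c I J) (∏ P ∈ hfinP.toFinset, q P) ∈ idl ρ Δ₀ := by
      refine hrad _ fun P hP => ?_
      rw [map_prod]
      exact Ideal.mem_of_dvd P (Finset.dvd_prod_of_mem _ (hfinP.mem_toFinset.2 hP)) (hq P hP)
    intro g hg
    have := (mem_idl ρ).1 hmem g hg
    rw [← Polynomial.aeval_algHom_apply] at this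
    rwa [Polynomial.coe_aeval_eq_eval] at this
  choose q hq0 hq using key
  refine Set.Finite.subset (Set.Finite.pi' fun I => Set.Finite.pi' fun J =>
    (Polynomial.finite_setOfPred_isRoot (hq0 I J))) ?_
  rintro M ⟨g, hg, rfl⟩ I J
  exact hq I J g hg

/-- **The double annihilator theorem.** An endomorphism of a tensor power which is killed by the
annihilator of the endomorphisms fixed by subgroups of finite index is fixed by a subgroup of finite
index. -/
theorem isTate_of_killed [CharZero K] {n : ℕ} {c : Matrix (Fin n → ι) (Fin n → ι) K}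
    (hc : ∀ x ∈ ann (IsTate ρ), Kills x c) : IsTate ρ n c := by
  obtain ⟨Δ₀, hΔ₀, hmin⟩ := exists_min ρ
  have hfin := finite_orbit ρ hc hmin
  letI := act ρ n
  have hsm : ∀ (g : Γ) (M : Matrix (Fin n → ι) (Fin n → ι) K), g • M =
    tpow n (ρ g : Matrix ι ι K) * M * tpow n ((ρ g)⁻¹ : (Matrix ι ι K)ˣ).1 := fun g M => rfl
  have horb : (MulAction.orbit Γ c).Finite := by
    have hq : Finite (Γ ⧸ Δ₀) := inferInstance
    refine Set.Finite.subset (Set.Finite.image2 (fun (a : Γ ⧸ Δ₀) M => a.out • M)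
      (Set.finite_univ) hfin) ?_
    rintro _ ⟨g, rfl⟩
    obtain ⟨h, hh⟩ := QuotientGroup.mk_out_eq_mul Δ₀ g
    refine ⟨(g : Γ ⧸ Δ₀), Set.mem_univ _, (orbP c).map (ev ρ (h : Γ)⁻¹), ⟨_, inv_mem h.2, rfl⟩, ?_⟩
    simp only
    rw [hh, orbP_ev, ← hsm, ← mul_smul]
    simp
  refine ⟨MulAction.stabilizer Γ c, ⟨?_⟩, fun g hg => ?_⟩
  · rw [MulAction.index_stabilizer]
    exact ((Set.ncard_pos horb).2 ⟨c, MulAction.mem_orbit_self c⟩).ne'
  · have h1 : g • c = c := hg
    rw [hsm] at h1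
    exact fixes_of_conj_eq (Units.inv_mul (ρ g)) h1

/-- The group normalizes the annihilator. -/
theorem conj_mem_annTate {g : Γ} {x : Matrix ι ι K} (hx : x ∈ ann (IsTate ρ)) :
    (ρ g : Matrix ι ι K) * x * ((ρ g)⁻¹ : (Matrix ι ι K)ˣ).1 ∈ ann (IsTate ρ) := by
  rintro n c ⟨Δ, hΔ, hfix⟩
  set c' := tpow n ((ρ g)⁻¹ : (Matrix ι ι K)ˣ).1 * c * tpow n (ρ g : Matrix ι ι K) with hc'
  have e1 : ∀ m, tpow m (ρ g : Matrix ι ι K) * tpow m ((ρ g)⁻¹ : (Matrix ι ι K)ˣ).1 = 1 := fun m => by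
    rw [← tpow_mul, Units.mul_inv, tpow_one]
  have hT : IsTate ρ n c' := by
    refine ⟨Δ.comap (MulAut.conj g).toMonoidHom, ⟨?_⟩, fun d hd => ?_⟩
    · rw [Subgroup.index_comap_of_surjective _ (MulAut.conj g).surjective]
      exact hΔ.index_ne_zero
    have h1 : g * d * g⁻¹ ∈ Δ := hd
    have h2 := hfix _ h1
    unfold Fixes at h2 ⊢
    rw [map_mul, map_mul, map_inv, Units.val_mul, Units.val_mul, tpow_mul, tpow_mul] at h2
    have h3 := congrArg (fun M => tpow n ((ρ g)⁻¹ : (Matrix ι ι K)ˣ).1 * M * tpow n (ρ g : Matrix ι ι K)) h2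
    have e2 : tpow n ((ρ g)⁻¹ : (Matrix ι ι K)ˣ).1 * tpow n (ρ g : Matrix ι ι K) = 1 := by
      rw [← tpow_mul, Units.inv_mul, tpow_one]
    rw [hc']
    calc tpow n (ρ d : Matrix ι ι K) * (tpow n ((ρ g)⁻¹ : (Matrix ι ι K)ˣ).1 * c *
          tpow n (ρ g : Matrix ι ι K))
        = (tpow n ((ρ g)⁻¹ : (Matrix ι ι K)ˣ).1 * tpow n (ρ g : Matrix ι ι K)) *
          tpow n (ρ d : Matrix ι ι K) * tpow n ((ρ g)⁻¹ : (Matrix ι ι K)ˣ).1 * c *
          tpow n (ρ g : Matrix ι ι K) := by rw [e2, one_mul]; simp only [mul_assoc]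
      _ = tpow n ((ρ g)⁻¹ : (Matrix ι ι K)ˣ).1 * (tpow n (ρ g : Matrix ι ι K) *
          tpow n (ρ d : Matrix ι ι K) * tpow n ((ρ g)⁻¹ : (Matrix ι ι K)ˣ).1 * c) *
          tpow n (ρ g : Matrix ι ι K) := by simp only [mul_assoc]
      _ = tpow n ((ρ g)⁻¹ : (Matrix ι ι K)ˣ).1 * c * tpow n (ρ g : Matrix ι ι K) *
          tpow n (ρ d : Matrix ι ι K) * (tpow n ((ρ g)⁻¹ : (Matrix ι ι K)ˣ).1 *
          tpow n (ρ g : Matrix ι ι K)) := by rw [h2]; simp only [mul_assoc]
      _ = _ := by rw [e2, mul_one]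
  have h1 := (hx n c' hT).conj (Units.mul_inv (ρ g)) (Units.inv_mul (ρ g))
  have h2 : tpow n (ρ g : Matrix ι ι K) * c' * tpow n ((ρ g)⁻¹ : (Matrix ι ι K)ˣ).1 = c := by
    rw [hc']
    calc _ = (tpow n (ρ g : Matrix ι ι K) * tpow n ((ρ g)⁻¹ : (Matrix ι ι K)ˣ).1) * c *
          (tpow n (ρ g : Matrix ι ι K) * tpow n ((ρ g)⁻¹ : (Matrix ι ι K)ˣ).1) := by
            simp only [mul_assoc]
      _ = c := by rw [e1, one_mul, mul_one]
  rwa [h2] at h1

theorem conj_mem_rad {g : Γ} {x : Matrix ι ι K} (hx : x ∈ rad (IsTate ρ)) :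
    (ρ g : Matrix ι ι K) * x * ((ρ g)⁻¹ : (Matrix ι ι K)ˣ).1 ∈ rad (IsTate ρ) := by
  refine ⟨conj_mem_annTate ρ hx.1, fun y hy => ?_⟩
  have h1 := conj_mem_annTate ρ (g := g⁻¹) hy
  rw [map_inv, inv_inv] at h1
  have h2 := hx.2 _ h1
  rw [← h2]
  rw [show (ρ g : Matrix ι ι K) * x * ((ρ g)⁻¹ : (Matrix ι ι K)ˣ).1 * y =
    (ρ g : Matrix ι ι K) * (x * ((ρ g)⁻¹ : (Matrix ι ι K)ˣ).1 * y) by simp only [mul_assoc],
    trace_mul_comm]
  simp only [mul_assoc]

/-- The vectors which are killed by the radical. -/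
def killedSpace (P : Family ι K) : Submodule K (ι → K) where
  carrier := {u | ∀ x ∈ rad P, x *ᵥ u = 0}
  add_mem' := fun {a b} ha hb x hx => by rw [Matrix.mulVec_add, ha x hx, hb x hx, add_zero]
  zero_mem' := fun x _ => Matrix.mulVec_zero x
  smul_mem' := fun c a ha x hx => by rw [Matrix.mulVec_smul, ha x hx, smul_zero]

theorem rad_eq_bot' [CharZero K] {P : Family ι K} {U' : Submodule K (ι → K)}
    (hU' : ∀ x ∈ ann P, ∀ u ∈ U', x *ᵥ u ∈ U') (hc : IsCompl (killedSpace P) U') : rad P = ⊥ := by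
  have hbot : U' = ⊥ := by
    by_contra hne
    obtain ⟨u, hu, hu0, hk⟩ := exists_killed (P := P) (fun x hx => hU' x hx.1) hne
    exact hu0 (Submodule.disjoint_def.1 hc.disjoint u hk hu)
  have htop : killedSpace P = ⊤ := by
    have := hc.sup_eq_top
    rwa [hbot, sup_bot_eq] at this
  rw [eq_bot_iff]
  intro x hx
  rw [Submodule.mem_bot]
  ext i j
  have hu : (Pi.single j 1 : ι → K) ∈ killedSpace P := htop ▸ Submodule.mem_top
  have := congrFun (hu x hx) i
  rw [Matrix.mulVec_single_one] at this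
  exact this

theorem traceNondeg_tate [CharZero K] (hss : SemisimpleRep ρ) : TraceNondeg (ann (IsTate ρ)) := by
  have hU : ∀ g, ∀ u ∈ killedSpace (IsTate ρ), (ρ g : Matrix ι ι K) *ᵥ u ∈ killedSpace (IsTate ρ) := by
    intro g u hu x hx
    have h1 := conj_mem_rad ρ (g := g⁻¹) hx
    rw [map_inv, inv_inv] at h1
    have h2 := hu _ h1
    have h3 := congrArg (fun v => (ρ g : Matrix ι ι K) *ᵥ v) h2
    simp only [Matrix.mulVec_mulVec, Matrix.mulVec_zero] at h3 ⊢
    rw [← mul_assoc, ← mul_assoc, Units.mul_inv, one_mul] at h3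
    exact h3
  obtain ⟨U', hU', hc⟩ := hss _ hU
  have hst : ∀ x ∈ ann (IsTate ρ), ∀ u ∈ U', x *ᵥ u ∈ U' := by
    -- the projector onto `U'`
    set pr : (ι → K) →ₗ[K] (ι → K) := U'.subtype ∘ₗ Submodule.projectionOnto U' _ hc.symm with hpr
    have hp1 : ∀ v, pr v ∈ U' := fun v => (Submodule.projectionOnto U' _ hc.symm v).2
    have hp2 : ∀ v ∈ U', pr v = v := fun v hv => by
      rw [hpr, LinearMap.comp_apply]
      exact congrArg Subtype.val (Submodule.projectionOnto_apply_left hc.symm ⟨v, hv⟩)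
    have hp3 : ∀ v ∈ killedSpace (IsTate ρ), pr v = 0 := fun v hv => by
      rw [hpr, LinearMap.comp_apply]
      have : v ∈ LinearMap.ker (Submodule.projectionOnto U' _ hc.symm) :=
        (SetLike.ext_iff.1 (Submodule.ker_projectionOnto hc.symm) _).2 hv
      rw [LinearMap.mem_ker.1 this]
      rfl
    have hcomm : ∀ g v, pr ((ρ g : Matrix ι ι K) *ᵥ v) = (ρ g : Matrix ι ι K) *ᵥ pr v := by
      intro g v
      obtain ⟨a, ha, b, hb, rfl⟩ : ∃ a ∈ killedSpace (IsTate ρ), ∃ b ∈ U', a + b = v := by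
        have : v ∈ killedSpace (IsTate ρ) ⊔ U' := hc.sup_eq_top ▸ Submodule.mem_top
        exact Submodule.mem_sup.1 this
      rw [Matrix.mulVec_add, map_add, map_add, hp3 _ (hU g a ha), hp3 a ha, hp2 _ (hU' g b hb),
        hp2 b hb, zero_add, zero_add]
    have hmat : ∀ v, LinearMap.toMatrix' pr *ᵥ v = pr v := fun v => by
      rw [← Matrix.toLin'_apply, Matrix.toLin'_toMatrix']
    have hT : IsTate ρ 1 (one' (LinearMap.toMatrix' pr)) := by
      refine ⟨⊤, inferInstance, fun g _ => ?_⟩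
      have ht : tpow 1 (ρ g : Matrix ι ι K) = one' (ρ g : Matrix ι ι K) := by
        ext I J
        simp [tpow, one']
      unfold Fixes
      rw [ht, one'_mul, one'_mul]
      congr 1
      refine Matrix.toLin'.injective (LinearMap.ext fun v => ?_)
      rw [Matrix.toLin'_apply, Matrix.toLin'_apply, ← Matrix.mulVec_mulVec, ← Matrix.mulVec_mulVec,
        hmat, hmat, hcomm]
    intro x hx u hu
    have h1 := kills_one'.1 (hx 1 _ hT)
    have h2 : x *ᵥ (LinearMap.toMatrix' pr *ᵥ u) = LinearMap.toMatrix' pr *ᵥ (x *ᵥ u) := by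
      rw [Matrix.mulVec_mulVec, Matrix.mulVec_mulVec, h1]
    rw [hmat, hmat, hp2 u hu] at h2
    rw [h2]
    exact hp1 _
  intro x hx h
  have : x ∈ rad (IsTate ρ) := ⟨hx, h⟩
  rw [rad_eq_bot' hst hc] at this
  exact (Submodule.mem_bot K).1 this

end Zariski

end Pool.Agent.D0H93.MT
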