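import Pool.Agent.D0H93.MT.Two

/-!
# Polarized Hodge structures
-/

set_option autoImplicit false
set_option linter.unusedSectionVars false
set_option linter.unusedVariables false

open Matrix

namespace Pool.Agent.D0H93.MT

variable {ι : Type} [Fintype ι] [DecidableEq ι] {w : ℤ}

section Zpow

theorem prod_zpow_sum {n : ℕ} {z : ℂ} (hz : z ≠ 0) (f : Fin n → ℤ) :
    ∏ k, z ^ f k = z ^ ∑ k, f k := by
  have : ∀ s : Finset (Fin n), ∏ k ∈ s, z ^ f k = z ^ ∑ k ∈ s, f k := by
    intro s
    induction s using Finset.induction_on with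
    | empty => simp
    | insert a s ha ih => rw [Finset.prod_insert ha, Finset.sum_insert ha, zpow_add₀ hz, ih]
  exact this _

theorem exists_unit_zpow_ne {a : ℤ} (ha : a ≠ 0) :
    ∃ z : ℂ, z ≠ 0 ∧ (starRingEnd ℂ) z = z⁻¹ ∧ z ^ a ≠ 1 := by
  refine ⟨Complex.exp (Real.pi * Complex.I / a), Complex.exp_ne_zero _, ?_, ?_⟩
  · rw [← Complex.exp_conj, ← Complex.exp_neg]
    congr 1
    simp [neg_div]
  · rw [← Complex.exp_int_mul, mul_div_cancel₀ _ (Int.cast_ne_zero.2 ha), Complex.exp_pi_mul_I]
    norm_num

end Zpow

/-- Conjugation of a `Fixes` statement. -/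
theorem Fixes.conj {K : Type} [Field K] {n : ℕ} {g g' x : Matrix ι ι K} (hg : g * g' = 1)
    (hg' : g' * g = 1)
    {c : Matrix (Fin n → ι) (Fin n → ι) K} (hx : Fixes x c) :
    Fixes (g * x * g') (tpow n g * c * tpow n g') := by
  unfold Fixes at *
  have e1 : tpow n g' * tpow n g = 1 := by rw [← tpow_mul, hg', tpow_one]
  rw [tpow_mul, tpow_mul]
  calc tpow n g * tpow n x * tpow n g' * (tpow n g * c * tpow n g')
      = tpow n g * tpow n x * (tpow n g' * tpow n g) * c * tpow n g' := by simp only [mul_assoc]
    _ = tpow n g * (tpow n x * c) * tpow n g' := by rw [e1, mul_one]; simp only [mul_assoc]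
    _ = tpow n g * c * (tpow n g' * tpow n g) * tpow n x * tpow n g' := by
        rw [hx, e1, mul_one]; simp only [mul_assoc]
    _ = _ := by simp only [mul_assoc]

theorem Fixes.of_conj {K : Type} [Field K] {n : ℕ} {g g' x : Matrix ι ι K} (hg : g * g' = 1)
    (hg' : g' * g = 1) {c : Matrix (Fin n → ι) (Fin n → ι) K}
    (hx : Fixes (g * x * g') (tpow n g * c * tpow n g')) : Fixes x c := by
  have h := hx.conj hg' hg
  have e1 : tpow n g' * tpow n g = 1 := by rw [← tpow_mul, hg', tpow_one]
  have a1 : g' * (g * x * g') * g = x := by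
    calc g' * (g * x * g') * g = (g' * g) * x * (g' * g) := by simp only [mul_assoc]
      _ = x := by rw [hg', one_mul, mul_one]
  have a2 : tpow n g' * (tpow n g * c * tpow n g') * tpow n g = c := by
    calc tpow n g' * (tpow n g * c * tpow n g') * tpow n g
        = (tpow n g' * tpow n g) * c * (tpow n g' * tpow n g) := by simp only [mul_assoc]
      _ = c := by rw [e1, one_mul, mul_one]
  rwa [a1, a2] at h

namespace HodgeStructure

/-- The infinitesimal generator: an operator `H` whose polynomials include the `h z`, which kills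
exactly the endomorphisms of Hodge structures. -/
theorem exists_generator (S : HodgeStructure ι w) :
    ∃ H : Matrix ι ι ℂ, (∀ z, z ≠ 0 → ∃ P : Polynomial ℂ, S.h z = Polynomial.aeval H P) ∧
      ∀ (n : ℕ) (c : Matrix (Fin n → ι) (Fin n → ι) ℂ),
        Kills H c ↔ ∀ z, z ≠ 0 → Fixes (S.h z) c := by
  obtain ⟨B, B', p, hB, hB', hh⟩ := S.exists_basis
  set D : Matrix ι ι ℂ := diagonal fun i => (p i : ℂ) with hD
  have hconj : ∀ X : Matrix ι ι ℂ, B' * (B * X * B') * B = X := fun X => by
    calc _ = (B' * B) * X * (B' * B) := by simp only [mul_assoc]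
      _ = X := by rw [hB', one_mul, mul_one]
  refine ⟨B * D * B', fun z hz => ?_, fun n c => ?_⟩
  · -- interpolation
    have hinj : Set.InjOn (fun m : ℤ => (m : ℂ)) (Finset.univ.image p : Finset ℤ) :=
      fun a _ b _ hab => Int.cast_injective hab
    set P : Polynomial ℂ := Lagrange.interpolate (Finset.univ.image p) (fun m : ℤ => (m : ℂ))
      (fun m => z ^ m * (starRingEnd ℂ z) ^ (w - m)) with hP
    refine ⟨P, ?_⟩
    have hev : ∀ i, P.eval (p i : ℂ) = z ^ p i * (starRingEnd ℂ z) ^ (w - p i) := fun i =>
      Lagrange.eval_interpolate_at_node _ hinj (Finset.mem_image_of_mem p (Finset.mem_univ i))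
    have hpol : ∀ R : Polynomial ℂ, Polynomial.aeval (B * D * B') R =
        B * diagonal (fun i => R.eval (p i : ℂ)) * B' := by
      intro R
      induction R using Polynomial.induction_on with
      | C a =>
        rw [Polynomial.aeval_C]
        simp only [Polynomial.eval_C]
        have : (diagonal fun _ => a : Matrix ι ι ℂ) = a • 1 := by
          rw [Matrix.smul_one_eq_diagonal]
        rw [this, mul_smul_comm, smul_mul_assoc, mul_one, hB, Algebra.algebraMap_eq_smul_one]
      | add f g hf hg =>
        rw [map_add, hf, hg, ← add_mul, ← mul_add, diagonal_add]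
        simp only [Polynomial.eval_add]
      | monomial k a h =>
        rw [pow_succ, ← mul_assoc, map_mul, h, Polynomial.aeval_X]
        simp only [Polynomial.eval_mul, Polynomial.eval_X, Polynomial.eval_C, Polynomial.eval_pow]
        calc _ = B * diagonal (fun i => a * (p i : ℂ) ^ k) * (B' * B) * D * B' := by
              simp only [mul_assoc]
          _ = _ := by
              rw [hB', mul_one, mul_assoc B, hD, diagonal_mul_diagonal]
    rw [hpol, hh z hz]
    simp only [hev]
  · have e1 : Kills (B * D * B') c ↔ Kills D (tpow n B' * c * tpow n B) := by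
      constructor
      · intro h
        have := h.conj hB' hB
        rwa [hconj] at this
      · intro h
        exact Kills.of_conj hB' hB (by rwa [hconj])
    have e2 : ∀ z, z ≠ 0 → (Fixes (S.h z) c ↔
        Fixes (diagonal fun i => z ^ p i * (starRingEnd ℂ z) ^ (w - p i))
          (tpow n B' * c * tpow n B)) := by
      intro z hz
      rw [hh z hz]
      constructor
      · intro h
        have := h.conj hB' hB
        rwa [hconj] at this
      · intro h
        exact Fixes.of_conj hB' hB (by rwa [hconj])
    rw [e1]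
    set c' := tpow n B' * c * tpow n B
    -- both conditions say that `c'` respects the sum of the `p`
    have f1 : Kills D c' ↔ ∀ I J, c' I J = 0 ∨ ∑ k, p (I k) = ∑ k, p (J k) := by
      unfold Kills
      rw [hD, tder_diagonal]
      constructor
      · intro h I J
        have := congrFun (congrFun h I) J
        rw [Matrix.diagonal_mul, Matrix.mul_diagonal] at this
        by_cases h0 : c' I J = 0
        · exact Or.inl h0
        · right
          have h1 : (∑ k, (p (I k) : ℂ)) = ∑ k, (p (J k) : ℂ) :=
            mul_right_cancel₀ h0 (by rw [this, mul_comm])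
          exact_mod_cast h1
      · intro h
        ext I J
        rw [Matrix.diagonal_mul, Matrix.mul_diagonal]
        rcases h I J with h | h
        · rw [h, mul_zero, zero_mul]
        · have h1 : (∑ k, (p (I k) : ℂ)) = ∑ k, (p (J k) : ℂ) := by exact_mod_cast h
          rw [h1, mul_comm]
    have g1 : ∀ z : ℂ, z ≠ 0 → ∀ I : Fin n → ι,
        ∏ k, (z ^ p (I k) * (starRingEnd ℂ z) ^ (w - p (I k))) =
          z ^ (∑ k, p (I k)) * (starRingEnd ℂ z) ^ (n * w - ∑ k, p (I k)) := by
      intro z hz I
      have hz' : (starRingEnd ℂ) z ≠ 0 := (map_ne_zero _).2 hz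
      rw [Finset.prod_mul_distrib, prod_zpow_sum hz, prod_zpow_sum hz', Finset.sum_sub_distrib]
      simp
    have f2 : (∀ z, z ≠ 0 → Fixes (diagonal fun i => z ^ p i * (starRingEnd ℂ z) ^ (w - p i)) c') ↔
        ∀ I J, c' I J = 0 ∨ ∑ k, p (I k) = ∑ k, p (J k) := by
      unfold Fixes
      simp only [tpow_diagonal]
      constructor
      · intro h I J
        by_contra hne
        push Not at hne
        obtain ⟨h0, h1⟩ := hne
        obtain ⟨z, hz, hzc, hz1⟩ := exists_unit_zpow_ne
          (a := 2 * (∑ k, p (I k) - ∑ k, p (J k))) (by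
            intro h2
            rcases mul_eq_zero.1 h2 with h3 | h3
            · norm_num at h3
            · exact h1 (sub_eq_zero.1 h3))
        have := congrFun (congrFun (h z hz) I) J
        rw [Matrix.diagonal_mul, Matrix.mul_diagonal, mul_comm] at this
        have h2 := mul_left_cancel₀ h0 this
        rw [g1 z hz, g1 z hz, hzc, _root_.inv_zpow', _root_.inv_zpow', ← zpow_add₀ hz, ← zpow_add₀ hz] at h2
        apply hz1
        have h3 : z ^ (2 * (∑ k, p (I k) - ∑ k, p (J k))) =
            z ^ (∑ k, p (I k) + -(n * w - ∑ k, p (I k))) /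
              z ^ (∑ k, p (J k) + -(n * w - ∑ k, p (J k))) := by
          rw [← zpow_sub₀ hz]
          congr 1
          ring
        rw [h3, h2, div_self (zpow_ne_zero _ hz)]
      · intro h z hz
        ext I J
        rw [Matrix.diagonal_mul, Matrix.mul_diagonal]
        rcases h I J with h | h
        · rw [h, mul_zero, zero_mul]
        · rw [g1 z hz, g1 z hz, h, mul_comm]
    rw [f1, ← f2]
    exact forall_congr' fun z => forall_congr' fun hz => (e2 z hz).symm

end HodgeStructure

end Pool.Agent.D0H93.MT
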