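import Pool.Agent.D0H93.MT.Hodge
import Pool.Agent.D0H93.MT.Grp

/-!
# The second tensor power decides
-/

set_option autoImplicit false
set_option linter.unusedSectionVars false
set_option linter.unusedVariables false

open Matrix

namespace Pool.Agent.D0H93.MT

variable {ι : Type} [Fintype ι] [DecidableEq ι]

/-- The endomorphisms of the tensor powers which commute with `N`. -/
def inv {K : Type} [Field K] (N : Submodule K (Matrix ι ι K)) : Family ι K :=
  fun _ c => ∀ x ∈ N, Kills x c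

theorem final_step {K : Type} [Field K] [CharZero K] {H G : Submodule K (Matrix ι ι K)}
    (hle : H ≤ G) (hnd : TraceNondeg H) (hone : ∀ a : K, (a • 1 : Matrix ι ι K) ∈ H)
    {Q : Matrix ι ι K} (hQ : IsUnit Q.det) (hmul : ∀ x ∈ G, ∃ μ : K, xᵀ * Q + Q * x = μ • Q)
    (hIV : ∀ z ∈ G, (∀ x ∈ G, x * z = z * x) → zᵀ * Q = Q * z)
    (h1 : ∀ z, (∀ y ∈ H, y * z = z * y) → ∀ x ∈ G, x * z = z * x)
    {φ : Matrix ι ι K →ₗ[K] Matrix ι ι K} (hφ : IsProjector H φ)
    (h2 : ∀ x ∈ G, ∀ y, φ (x * y - y * x) = x * φ y - φ y * x) : G = H := by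
  refine le_antisymm (fun x hx => ?_) hle
  obtain ⟨hd, hc⟩ := core hle hnd hφ h2 hx
  set d := x - φ x with hdd
  have hcG := h1 d hc
  have e1 := hIV d hd hcG
  obtain ⟨μ, e2⟩ := hmul d hd
  rw [e1, ← two_mul, ← mul_assoc] at e2
  have e3 : d = (μ / 2) • 1 := by
    have h3 : Q * (2 • d) = Q * (μ • 1) := by
      rw [mul_smul_comm, mul_smul_comm, mul_one, ← e2, mul_assoc, two_mul, two_smul]
    have h4 := congrArg (fun M => Q⁻¹ * M) h3
    simp only [← mul_assoc, Matrix.nonsing_inv_mul _ hQ, one_mul] at h4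
    rw [div_eq_inv_mul, ← smul_smul, ← h4, ← Nat.cast_smul_eq_nsmul K, smul_smul]
    norm_num
  have hdH : d ∈ H := e3 ▸ hone _
  have h0 : φ d = 0 := by
    rw [hdd, map_sub, hφ.apply_of_mem hnd (hφ.1 x), sub_self]
  rw [hφ.apply_of_mem hnd hdH] at h0
  have : x = φ x := sub_eq_zero.1 (hdd ▸ h0)
  rw [this]
  exact hφ.1 x

/-- The projector onto an annihilator commutes with the bracket. -/
theorem projector_equivariant {K : Type} [Field K] {P : Family ι K} (hnd : TraceNondeg (ann P))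
    {φ : Matrix ι ι K →ₗ[K] Matrix ι ι K} (hφ : IsProjector (ann P) φ) {x : Matrix ι ι K}
    (hx : x ∈ ann P) (y : Matrix ι ι K) : φ (x * y - y * x) = x * φ y - φ y * x := by
  refine hφ.eq hnd (ann_lie hx (hφ.1 y)) fun z hz => ?_
  have e : ∀ a : Matrix ι ι K, ((x * a - a * x) * z).trace = - (a * (x * z - z * x)).trace := by
    intro a
    rw [← neg_sub (a * x) (x * a), neg_mul, trace_neg, trace_lie]
  rw [e, e, hφ.2 y _ (ann_lie hx hz)]

/-- The three equivalent conditions over one field. -/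
theorem tfae_core {K : Type} [Field K] [CharZero K] {P : Family ι K} {G : Submodule K (Matrix ι ι K)}
    (hle : ann P ≤ G) (hnd : TraceNondeg (ann P))
    {Q : Matrix ι ι K} (hQ : IsUnit Q.det) (hmul : ∀ x ∈ G, ∃ μ : K, xᵀ * Q + Q * x = μ • Q)
    (hIV : ∀ z ∈ G, (∀ x ∈ G, x * z = z * x) → zᵀ * Q = Q * z) :
    (G = ann P ↔ ∀ c : Matrix (Fin 2 → ι) (Fin 2 → ι) K, inv (ann P) 2 c → ∀ x ∈ G, Kills x c) ∧
    (G = ann P ↔ (∀ c : Matrix (Fin 1 → ι) (Fin 1 → ι) K, inv (ann P) 1 c → ∀ x ∈ G, Kills x c) ∧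
      ∀ φ, IsProjector (ann P) φ → ∀ x ∈ G, Kills x (tens φ)) := by
  obtain ⟨φ, hφ⟩ := exists_projector hnd
  constructor
  · constructor
    · rintro rfl c hc x hx
      exact hc x hx
    · intro h
      refine final_step hle hnd (scalar_mem_ann P) hQ hmul hIV ?_ hφ ?_
      · intro z hz x hx
        exact kills_mulLeft.1 (h _ (fun y hy => kills_mulLeft.2 (hz y hy)) x hx)
      · intro x hx
        exact kills_tens.1 (h _ (fun y hy => kills_tens.2 (projector_equivariant hnd hφ hy)) x hx)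
  · constructor
    · rintro rfl
      refine ⟨fun c hc x hx => hc x hx, fun ψ hψ x hx => ?_⟩
      exact kills_tens.2 (projector_equivariant hnd hψ hx)
    · rintro ⟨ha, hb⟩
      refine final_step hle hnd (scalar_mem_ann P) hQ hmul hIV ?_ hφ ?_
      · intro z hz x hx
        exact kills_one'.1 (ha (one' z) (fun y hy => kills_one'.2 (hz y hy)) x hx)
      · intro x hx
        exact kills_tens.1 (hb φ hφ x hx)

namespace HodgeStructure

variable {w : ℤ} (S : HodgeStructure ι w)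

theorem isHodge_of_killed {n : ℕ} {c : Matrix (Fin n → ι) (Fin n → ι) ℚ}
    (h : ∀ x ∈ ann S.IsHodge, Kills x c) : S.IsHodge n c := by
  obtain ⟨H, -, hH⟩ := S.exists_generator
  have h1 : H ∈ ann (ext ℂ S.IsHodge) := by
    rintro m _ ⟨c₀, hc₀, rfl⟩
    exact (hH m _).2 hc₀
  exact (hH n _).1 (kills_co.2 fun f => h _ (mem_ann_ext.1 h1 f))

variable {S}

theorem det_ne_zero {Q : Matrix ι ι ℚ} (hQ : S.IsPolarization Q) : Q.det ≠ 0 := by
  intro h
  obtain ⟨v, hv, h0⟩ := Matrix.exists_mulVec_eq_zero_iff.2 h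
  have hv' : (fun i => (v i : ℝ)) ≠ 0 := by
    intro h'
    apply hv
    ext i
    have h2 := congrFun h' i
    simpa using h2
  have := hQ.pos _ hv'
  have e : (bc ℂ Q *ᵥ fun i => (((v i : ℚ) : ℝ) : ℂ)) = 0 := by
    ext i
    have h1 := congrFun h0 i
    simp only [Matrix.mulVec, dotProduct, Pi.zero_apply] at h1
    simp only [Matrix.mulVec, dotProduct, Matrix.map_apply, Pi.zero_apply, eq_ratCast]
    exact_mod_cast h1
  rw [HodgeStructure.form, e] at this
  simp at this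

/-- The complexification of a rational subspace. -/
def cSub (U : Submodule ℚ (ι → ℚ)) : Submodule ℂ (ι → ℂ) where
  carrier := {v | ∀ f : ℂ →ₗ[ℚ] ℚ, (fun i => f (v i)) ∈ U}
  add_mem' {v v'} hv hv' f := by
    have e : (fun i => f ((v + v') i)) = (fun i => f (v i)) + fun i => f (v' i) := by
      ext i; simp
    rw [e]; exact add_mem (hv f) (hv' f)
  zero_mem' f := by
    have e : (fun i => f ((0 : ι → ℂ) i)) = 0 := by ext i; simp
    rw [e]; exact zero_mem _
  smul_mem' a v hv f := hv (f ∘ₗ LinearMap.mulLeft ℚ a)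

theorem cSub_stable {P : Family ι ℚ} {U : Submodule ℚ (ι → ℚ)}
    (hU : ∀ x ∈ ann P, ∀ u ∈ U, x *ᵥ u ∈ U) {y : Matrix ι ι ℂ} (hy : y ∈ ann (ext ℂ P)) :
    ∀ v ∈ cSub U, y *ᵥ v ∈ cSub U := by
  have hs := mem_span_of_co (L := ℂ) (ann P) (x := y) (mem_ann_ext.1 hy)
  clear hy
  induction hs using Submodule.span_induction with
  | mem y hy =>
    obtain ⟨y₀, hy₀, rfl⟩ := hy
    intro v hv f
    have e : (fun i => f ((bc ℂ y₀ *ᵥ v) i)) = y₀ *ᵥ fun i => f (v i) := by
      ext i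
      simp only [Matrix.mulVec, dotProduct, Matrix.map_apply, map_sum]
      refine Finset.sum_congr rfl fun j _ => ?_
      rw [← Algebra.smul_def, map_smul, smul_eq_mul]
    rw [e]
    exact hU _ hy₀ _ (hv f)
  | zero => intro v _; rw [Matrix.zero_mulVec]; exact zero_mem _
  | add a b _ _ ha hb => intro v hv; rw [Matrix.add_mulVec]; exact add_mem (ha v hv) (hb v hv)
  | smul a b _ hb => intro v hv; rw [Matrix.smul_mulVec]; exact Submodule.smul_mem _ _ (hb v hv)

/-- The Weil operator preserves the complexifications of the stable subspaces. -/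
theorem cSub_h {U : Submodule ℚ (ι → ℚ)} (hU : ∀ x ∈ ann S.IsHodge, ∀ u ∈ U, x *ᵥ u ∈ U) {z : ℂ}
    (hz : z ≠ 0) : ∀ v ∈ cSub U, S.h z *ᵥ v ∈ cSub U := by
  obtain ⟨H, hp, hH⟩ := S.exists_generator
  have h1 : H ∈ ann (ext ℂ S.IsHodge) := by
    rintro m _ ⟨c₀, hc₀, rfl⟩
    exact (hH m _).2 hc₀
  have hst := cSub_stable hU h1
  obtain ⟨R, hR⟩ := hp z hz
  rw [hR]
  have : ∀ R : Polynomial ℂ, ∀ v ∈ cSub U, Polynomial.aeval H R *ᵥ v ∈ cSub U := by
    intro R
    induction R using Polynomial.induction_on with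
    | C a =>
      intro v hv
      rw [Polynomial.aeval_C, Algebra.algebraMap_eq_smul_one, Matrix.smul_mulVec, Matrix.one_mulVec]
      exact Submodule.smul_mem _ _ hv
    | add f g hf hg =>
      intro v hv
      rw [map_add, Matrix.add_mulVec]
      exact add_mem (hf v hv) (hg v hv)
    | monomial k a h =>
      intro v hv
      rw [pow_succ, ← mul_assoc, map_mul, Polynomial.aeval_X, ← Matrix.mulVec_mulVec]
      exact h _ (hst v hv)
  exact this R

theorem semisimple {Q : Matrix ι ι ℚ} (hQ : S.IsPolarization Q)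
    (hmul : ∀ x ∈ ann S.IsHodge, ∃ μ : ℚ, xᵀ * Q + Q * x = μ • Q) : Semisimple (ann S.IsHodge) := by
  intro U hU
  set B : LinearMap.BilinForm ℚ (ι → ℚ) := Matrix.toBilin' Q with hB
  have hBa : ∀ u v, B u v = u ⬝ᵥ Q *ᵥ v := fun u v => Matrix.toBilin'_apply' Q u v
  have hsw : ∀ u v, B v u = (-1 : ℚ) ^ w * B u v := by
    intro u v
    rw [hBa, hBa, Matrix.dotProduct_mulVec, ← Matrix.mulVec_transpose, hQ.sym, Matrix.smul_mulVec,
      smul_dotProduct, smul_eq_mul, dotProduct_comm]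
  have hrefl : B.IsRefl := by
    intro u v h
    rw [hsw, h, mul_zero]
  have hinj : ∀ u ∈ U, (∀ u' ∈ U, B u' u = 0) → u = 0 := by
    intro u hu h
    by_contra hne
    have hne' : (fun i => (u i : ℝ)) ≠ 0 := by
      intro h'
      apply hne
      ext i
      have h2 := congrFun h' i
      simpa using h2
    have hpos := hQ.pos _ hne'
    have huC : (fun i => (((u i : ℚ) : ℝ) : ℂ)) ∈ cSub U := by
      intro f
      have e : (fun i => f (((u i : ℚ) : ℝ) : ℂ)) = f 1 • u := by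
        ext i
        have : ((((u i : ℚ) : ℝ) : ℂ)) = (u i : ℚ) • (1 : ℂ) := by
          rw [Rat.smul_def, mul_one]; push_cast; rfl
        rw [this, map_smul, Pi.smul_apply, smul_eq_mul, smul_eq_mul, mul_comm]
      rw [e]
      exact U.smul_mem _ hu
    have hCu := cSub_h hU Complex.I_ne_zero _ huC
    have h0 : S.form Q (fun i => (u i : ℝ)) (fun i => (u i : ℝ)) = 0 := by
      rw [← Module.forall_dual_apply_eq_zero_iff ℚ]
      intro f
      have h1 := h _ (hCu f)
      rw [hBa] at h1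
      rw [HodgeStructure.form, ← h1]
      simp only [dotProduct, map_sum]
      refine Finset.sum_congr rfl fun i _ => ?_
      have e : (bc ℂ Q *ᵥ fun i => (((u i : ℚ) : ℝ) : ℂ)) i = algebraMap ℚ ℂ ((Q *ᵥ u) i) := by
        simp only [Matrix.mulVec, dotProduct, Matrix.map_apply, eq_ratCast]
        push_cast
        rfl
      rw [e, mul_comm, ← Algebra.smul_def, map_smul, smul_eq_mul, mul_comm]
    rw [h0] at hpos
    simp at hpos
  have hnd : (B.restrict U).Nondegenerate := by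
    rw [LinearMap.BilinForm.nondegenerate_iff_ker_eq_bot, LinearMap.ker_eq_bot']
    intro u hu
    refine Subtype.ext (hinj u.1 u.2 fun u' hu' => ?_)
    exact hrefl _ _ (LinearMap.congr_fun hu (⟨u', hu'⟩ : U))
  refine ⟨B.orthogonal U, ?_, LinearMap.BilinForm.isCompl_orthogonal_of_restrict_nondegenerate hrefl hnd⟩
  intro x hx v hv u hu
  obtain ⟨μ, hμ⟩ := hmul x hx
  have h1 : B u (x *ᵥ v) = μ * B u v - B (x *ᵥ u) v := by
    rw [hBa, hBa, hBa]
    have e1 : u ⬝ᵥ (xᵀ * Q + Q * x) *ᵥ v = μ * (u ⬝ᵥ Q *ᵥ v) := by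
      rw [hμ, Matrix.smul_mulVec, dotProduct_smul, smul_eq_mul]
    rw [Matrix.add_mulVec, dotProduct_add, ← Matrix.mulVec_mulVec, ← Matrix.mulVec_mulVec] at e1
    have e2 : u ⬝ᵥ xᵀ *ᵥ (Q *ᵥ v) = (x *ᵥ u) ⬝ᵥ Q *ᵥ v := by
      rw [Matrix.dotProduct_mulVec, Matrix.vecMul_transpose]
    rw [e2] at e1
    rw [← e1]
    ring
  show B u (x *ᵥ v) = 0
  rw [h1, show B u v = 0 from hv u hu, show B (x *ᵥ u) v = 0 from hv _ (hU x hx u hu)]
  ring

end HodgeStructure

theorem bc_rankOne {K : Type} [Field K] [CharZero K] (T Q : Matrix ι ι ℚ) :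
    bc K (rankOne T Q) = rankOne (bc K T) (bc K Q) := by
  ext I J
  simp [rankOne]

/-- **The second tensor power decides.** -/
theorem main [Nonempty ι] {w : ℤ} (S : HodgeStructure ι w) (Q : Matrix ι ι ℚ)
    (hQ : S.IsPolarization Q)
    (Mot : Family ι ℚ) (hM : ∀ n c, Mot n c → S.IsHodge n c) (hMQ : Mot 2 (formClass Q))
    (hIV : NoTypeIV (ann Mot) Q) (K : Type) [Field K] [CharZero K] {Γ : Type} [Group Γ]
    (ρ : Γ →* (Matrix ι ι K)ˣ) (hss : SemisimpleRep ρ)
    (hle : ∀ n c, Mot n c → IsTate ρ n (bc K c)) :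
    [(∀ n c, S.IsHodge n c → ∀ x ∈ ann Mot, Kills x c) ∧
        (∀ n c, IsTate ρ n c → ∀ x ∈ ann (ext K Mot), Kills x c),
      ann Mot = ann S.IsHodge ∧ ann (ext K Mot) = ann (IsTate ρ),
      (∀ c, S.IsHodge 2 c → ∀ x ∈ ann Mot, Kills x c) ∧
        (∀ c, IsTate ρ 2 c → ∀ x ∈ ann (ext K Mot), Kills x c),
      ((∀ c, S.IsHodge 1 c → ∀ x ∈ ann Mot, Kills x c) ∧
        ∀ φ, IsProjector (ann S.IsHodge) φ → ∀ x ∈ ann Mot, Kills x (tens φ)) ∧
      ((∀ c, IsTate ρ 1 c → ∀ x ∈ ann (ext K Mot), Kills x c) ∧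
        ∀ φ, IsProjector (ann (IsTate ρ)) φ → ∀ x ∈ ann (ext K Mot), Kills x (tens φ))].TFAE := by
  have hdet := HodgeStructure.det_ne_zero hQ
  have hinv : Q⁻¹ ≠ 0 := by
    intro h
    have h1 := Matrix.nonsing_inv_mul Q (isUnit_iff_ne_zero.2 hdet)
    rw [h, zero_mul] at h1
    obtain ⟨i⟩ := ‹Nonempty ι›
    have := congrFun (congrFun h1 i) i
    simp at this
  -- the Hodge side
  have hle1 : ann S.IsHodge ≤ ann Mot := fun x hx n c hc => hx n c (hM n c hc)
  have hmul1 : ∀ x ∈ ann Mot, ∃ μ : ℚ, xᵀ * Q + Q * x = μ • Q := fun x hx =>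
    multiplier hinv (hx 2 _ hMQ)
  have hssH := HodgeStructure.semisimple hQ fun x hx => hmul1 x (hle1 hx)
  have hIV1 : ∀ z ∈ ann Mot, (∀ x ∈ ann Mot, x * z = z * x) → zᵀ * Q = Q * z := fun z hz h =>
    hIV z h fun y hy => (hy z hz).symm
  have c1 := tfae_core hle1 (traceNondeg hssH) (isUnit_iff_ne_zero.2 hdet) hmul1 hIV1
  have eI : ∀ {n : ℕ} (c : Matrix (Fin n → ι) (Fin n → ι) ℚ),
      inv (ann S.IsHodge) n c ↔ S.IsHodge n c := fun c =>
    ⟨fun h => S.isHodge_of_killed h, fun h x hx => hx _ _ h⟩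
  simp only [eI] at c1
  -- the Tate side
  have hdet2 : IsUnit (bc K Q).det := by
    have : (bc K Q).det = algebraMap ℚ K Q.det := (RingHom.map_det (algebraMap ℚ K) Q).symm
    rw [this, isUnit_iff_ne_zero]
    exact (map_ne_zero _).2 hdet
  have hmul2 : ∀ x ∈ ann (ext K Mot), ∃ μ : K, xᵀ * bc K Q + bc K Q * x = μ • bc K Q := by
    intro x hx
    refine multiplier (T := bc K Q⁻¹) ?_ ?_
    · intro h
      apply hinv
      refine bc_injective (L := K) ?_
      rw [h]
      ext i j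
      simp
    · have := hx 2 _ ⟨formClass Q, hMQ, rfl⟩
      rwa [formClass, bc_rankOne] at this
  have hIV2 : ∀ z ∈ ann (ext K Mot), (∀ x ∈ ann (ext K Mot), x * z = z * x) →
      zᵀ * bc K Q = bc K Q * z := by
    intro z hz h
    refine ext_of_co (K := ℚ) fun f => ?_
    have h1 : (co f z)ᵀ * Q = Q * co f z := by
      refine hIV _ ?_ ?_
      · intro x hx
        rw [← co_bc_mul, ← co_mul_bc, h _ (bc_mem_ann_ext.2 hx)]
      · intro y hy
        have hy' : ∀ x ∈ ann (ext K Mot), x * bc K y = bc K y * x := by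
          intro x hx
          refine ext_of_co (K := ℚ) fun g => ?_
          rw [co_bc_mul, co_mul_bc]
          exact hy _ (mem_ann_ext.1 hx g)
        rw [← co_bc_mul, ← co_mul_bc, hy' z hz]
    rw [co_bc_mul, co_mul_bc, ← h1]
    rfl
  have hle2 : ann (IsTate ρ) ≤ ann (ext K Mot) := by
    rintro x hx n _ ⟨c₀, hc₀, rfl⟩
    exact hx n _ (hle n c₀ hc₀)
  have c2 := tfae_core (P := IsTate ρ) (G := ann (ext K Mot)) hle2
    (traceNondeg_tate ρ hss) hdet2 hmul2 hIV2
  have eT : ∀ {n : ℕ} (c : Matrix (Fin n → ι) (Fin n → ι) K),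
      inv (ann (IsTate ρ)) n c ↔ IsTate ρ n c := fun c =>
    ⟨fun h => isTate_of_killed ρ h, fun h x hx => hx _ _ h⟩
  simp only [eT] at c2
  tfae_have 2 ↔ 3 := and_congr c1.1 c2.1
  tfae_have 2 ↔ 4 := and_congr c1.2 c2.2
  tfae_have 1 → 3 := fun h => ⟨fun c => h.1 2 c, fun c => h.2 2 c⟩
  tfae_have 2 → 1 := by
    rintro ⟨h1, h2⟩
    exact ⟨fun n c hc x hx => by rw [h1] at hx; exact hx n c hc,
      fun n c hc x hx => by rw [h2] at hx; exact hx n c hc⟩
  tfae_finish

end Pool.Agent.D0H93.MT
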