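import Pool.Agent.D0H93.MT.Defs

/-!
# Operators on tensor powers, in coordinates

`tpow n g` is the matrix of `g ⊗ ⋯ ⊗ g` and `tder n x` the matrix of `∑ 1 ⊗ ⋯ ⊗ x ⊗ ⋯ ⊗ 1` (`n` factors).
-/

set_option autoImplicit false
set_option linter.unusedSectionVars false

open Matrix

namespace Pool.Agent.D0H93.MT

variable {ι : Type} [Fintype ι] [DecidableEq ι] {K : Type} [CommRing K]

/-- The matrix of `x` acting on the `k`-th factor. -/
def fac {n : ℕ} (k : Fin n) (x : Matrix ι ι K) : Matrix (Fin n → ι) (Fin n → ι) K :=
  Matrix.of fun I J => if ∀ l, l ≠ k → I l = J l then x (I k) (J k) else 0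

theorem tder_eq (n : ℕ) (x : Matrix ι ι K) : tder n x = ∑ k, fac k x := by
  ext I J
  simp [tder, fac, Matrix.sum_apply]

/-- Sums over the multi-indices which agree with a given one outside of one place. -/
theorem sum_upd {M : Type} [AddCommMonoid M] {n : ℕ} (k : Fin n) (I : Fin n → ι)
    (f : (Fin n → ι) → M) :
    (∑ L, if ∀ l, l ≠ k → I l = L l then f L else 0) = ∑ j, f (Function.update I k j) := by
  rw [← Finset.sum_filter]
  symm
  refine Finset.sum_bij' (fun j _ => Function.update I k j) (fun L _ => L k) ?_ ?_ ?_ ?_ ?_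
  · intro j _
    simp only [Finset.mem_filter, Finset.mem_univ, true_and]
    intro l hl
    rw [Function.update_of_ne hl]
  · intro L _
    exact Finset.mem_univ _
  · intro j _
    simp
  · intro L hL
    simp only [Finset.mem_filter, Finset.mem_univ, true_and] at hL
    ext l
    by_cases h : l = k
    · subst h; simp
    · rw [Function.update_of_ne h, hL l h]
  · intro j _
    rfl

theorem fac_mul {n : ℕ} (k : Fin n) (x : Matrix ι ι K) {m : Type} (M : Matrix (Fin n → ι) m K)
    (I : Fin n → ι) (J : m) :
    (fac k x * M) I J = ∑ j, x (I k) j * M (Function.update I k j) J := by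
  rw [Matrix.mul_apply]
  have : ∀ L, fac k x I L * M L J = if ∀ l, l ≠ k → I l = L l then x (I k) (L k) * M L J else 0 := by
    intro L
    simp only [fac, Matrix.of_apply]
    split_ifs <;> simp
  rw [Finset.sum_congr rfl fun L _ => this L, sum_upd k I fun L => x (I k) (L k) * M L J]
  simp

theorem mul_fac {n : ℕ} (k : Fin n) (x : Matrix ι ι K) {m : Type} (M : Matrix m (Fin n → ι) K)
    (I : m) (J : Fin n → ι) :
    (M * fac k x) I J = ∑ j, M I (Function.update J k j) * x j (J k) := by
  rw [Matrix.mul_apply]
  have : ∀ L, M I L * fac k x L J = if ∀ l, l ≠ k → J l = L l then M I L * x (L k) (J k) else 0 := by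
    intro L
    simp only [fac, Matrix.of_apply]
    by_cases h : ∀ l, l ≠ k → L l = J l
    · rw [if_pos h, if_pos fun l hl => (h l hl).symm]
    · rw [if_neg h, if_neg fun h' => h fun l hl => (h' l hl).symm, mul_zero]
  rw [Finset.sum_congr rfl fun L _ => this L, sum_upd k J fun L => M I L * x (L k) (J k)]
  simp

theorem fac_fac {n : ℕ} (k : Fin n) (x y : Matrix ι ι K) : fac k x * fac k y = fac k (x * y) := by
  ext I J
  rw [fac_mul]
  simp only [fac, Matrix.of_apply, Function.update_self]
  by_cases h : ∀ l, l ≠ k → I l = J l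
  · rw [if_pos h, Matrix.mul_apply]
    refine Finset.sum_congr rfl fun j _ => ?_
    rw [if_pos]
    intro l hl
    rw [Function.update_of_ne hl, h l hl]
  · rw [if_neg h]
    refine Finset.sum_eq_zero fun j _ => ?_
    rw [if_neg, mul_zero]
    intro h'
    refine h fun l hl => ?_
    have := h' l hl
    rwa [Function.update_of_ne hl] at this

theorem fac_comm {n : ℕ} {k l : Fin n} (hkl : k ≠ l) (x y : Matrix ι ι K) :
    fac k x * fac l y = fac l y * fac k x := by
  have key : ∀ {k l : Fin n}, k ≠ l → ∀ (x y : Matrix ι ι K) (I J : Fin n → ι),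
      (fac k x * fac l y) I J =
        if ∀ m, m ≠ k → m ≠ l → I m = J m then x (I k) (J k) * y (I l) (J l) else 0 := by
    intro k l hkl x y I J
    rw [fac_mul]
    simp only [fac, Matrix.of_apply]
    by_cases h : ∀ m, m ≠ k → m ≠ l → I m = J m
    · rw [if_pos h, Finset.sum_eq_single (J k)]
      · rw [if_pos, Function.update_of_ne hkl.symm]
        intro m hm
        by_cases hmk : m = k
        · subst hmk; simp
        · rw [Function.update_of_ne hmk, h m hmk hm]
      · intro j _ hj
        rw [if_neg, mul_zero]
        intro h'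
        have := h' k hkl
        rw [Function.update_self] at this
        exact hj this
      · intro h'; exact absurd (Finset.mem_univ _) h'
    · rw [if_neg h]
      refine Finset.sum_eq_zero fun j _ => ?_
      rw [if_neg, mul_zero]
      intro h'
      refine h fun m hmk hml => ?_
      have := h' m hml
      rwa [Function.update_of_ne hmk] at this
  ext I J
  rw [key hkl, key hkl.symm]
  have e : (∀ m, m ≠ k → m ≠ l → I m = J m) ↔ ∀ m, m ≠ l → m ≠ k → I m = J m :=
    ⟨fun h m h1 h2 => h m h2 h1, fun h m h1 h2 => h m h2 h1⟩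
  by_cases h : ∀ m, m ≠ k → m ≠ l → I m = J m
  · rw [if_pos h, if_pos (e.1 h), mul_comm]
  · rw [if_neg h, if_neg fun h' => h (e.2 h')]

theorem fac_sub {n : ℕ} (k : Fin n) (x y : Matrix ι ι K) : fac k (x - y) = fac k x - fac k y := by
  ext I J
  simp only [fac, Matrix.of_apply, Matrix.sub_apply]
  split_ifs <;> simp

theorem tder_lie (n : ℕ) (x y : Matrix ι ι K) :
    tder n (x * y - y * x) = tder n x * tder n y - tder n y * tder n x := by
  simp only [tder_eq, Finset.sum_mul_sum]
  rw [Finset.sum_comm (s := Finset.univ) (t := Finset.univ)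
    (f := fun i j => fac (K := K) i y * fac j x), ← Finset.sum_sub_distrib]
  refine Finset.sum_congr rfl fun k _ => ?_
  rw [← Finset.sum_sub_distrib, Finset.sum_eq_single k]
  · rw [fac_fac, fac_fac, fac_sub]
  · intro l _ hl
    rw [fac_comm hl.symm, sub_self]
  · intro h; exact absurd (Finset.mem_univ _) h

theorem tder_one (n : ℕ) : tder n (1 : Matrix ι ι K) = (n : K) • 1 := by
  ext I J
  simp only [tder, Matrix.of_apply, Matrix.smul_apply, smul_eq_mul]
  have : ∀ k : Fin n, (if ∀ l, l ≠ k → I l = J l then (1 : Matrix ι ι K) (I k) (J k) else 0) =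
      (1 : Matrix (Fin n → ι) (Fin n → ι) K) I J := by
    intro k
    by_cases h : I = J
    · subst h; simp
    · rw [Matrix.one_apply_ne h]
      split_ifs with h'
      · rw [Matrix.one_apply_ne]
        intro hk
        apply h
        ext l
        by_cases hl : l = k
        · subst hl; exact hk
        · exact h' l hl
      · rfl
  rw [Finset.sum_congr rfl fun k _ => this k]
  simp

theorem tpow_mul (n : ℕ) (g h : Matrix ι ι K) : tpow n (g * h) = tpow n g * tpow n h := by
  ext I J
  simp only [tpow, Matrix.of_apply, Matrix.mul_apply]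
  rw [Finset.prod_univ_sum]
  simp only [Fintype.piFinset_univ, Finset.prod_mul_distrib]

theorem tpow_one (n : ℕ) : tpow n (1 : Matrix ι ι K) = 1 := by
  ext I J
  simp only [tpow, Matrix.of_apply]
  by_cases h : I = J
  · subst h; simp
  · rw [Matrix.one_apply_ne h]
    obtain ⟨k, hk⟩ := Function.ne_iff.1 h
    exact Finset.prod_eq_zero (Finset.mem_univ k) (Matrix.one_apply_ne hk)

/-- If `g x = y g` then `g ^ ⊗n` intertwines the derivations of `x` and `y`. -/
theorem tpow_tder (n : ℕ) {g x y : Matrix ι ι K} (h : g * x = y * g) :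
    tpow n g * tder n x = tder n y * tpow n g := by
  simp only [tder_eq, Finset.mul_sum, Finset.sum_mul]
  refine Finset.sum_congr rfl fun k _ => ?_
  ext I J
  rw [mul_fac, fac_mul]
  have e1 : ∀ j, tpow n g I (Function.update J k j) * x j (J k) =
      (∏ m ∈ Finset.univ.erase k, g (I m) (J m)) * (g (I k) j * x j (J k)) := by
    intro j
    simp only [tpow, Matrix.of_apply]
    rw [← Finset.mul_prod_erase Finset.univ _ (Finset.mem_univ k), Function.update_self,
      Finset.prod_congr rfl fun m hm => by
        rw [Function.update_of_ne (Finset.ne_of_mem_erase hm)]]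
    ring
  have e2 : ∀ j, y (I k) j * tpow n g (Function.update I k j) J =
      (∏ m ∈ Finset.univ.erase k, g (I m) (J m)) * (y (I k) j * g j (J k)) := by
    intro j
    simp only [tpow, Matrix.of_apply]
    rw [← Finset.mul_prod_erase Finset.univ _ (Finset.mem_univ k), Function.update_self,
      Finset.prod_congr rfl fun m hm => by
        rw [Function.update_of_ne (Finset.ne_of_mem_erase hm)]]
    ring
  rw [Finset.sum_congr rfl fun j _ => e1 j, Finset.sum_congr rfl fun j _ => e2 j,
    ← Finset.mul_sum, ← Finset.mul_sum, ← Matrix.mul_apply, ← Matrix.mul_apply, h]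

theorem tder_diagonal (n : ℕ) (a : ι → K) :
    tder n (diagonal a) = diagonal fun I => ∑ k, a (I k) := by
  ext I J
  simp only [tder, Matrix.of_apply]
  by_cases h : I = J
  · subst h; simp
  · rw [diagonal_apply_ne _ h]
    refine Finset.sum_eq_zero fun k _ => ?_
    split_ifs with h'
    · rw [diagonal_apply_ne]
      intro hk
      apply h
      ext l
      by_cases hl : l = k
      · subst hl; exact hk
      · exact h' l hl
    · rfl

theorem tpow_diagonal (n : ℕ) (a : ι → K) :
    tpow n (diagonal a) = diagonal fun I => ∏ k, a (I k) := by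
  ext I J
  simp only [tpow, Matrix.of_apply]
  by_cases h : I = J
  · subst h; simp
  · rw [diagonal_apply_ne _ h]
    obtain ⟨k, hk⟩ := Function.ne_iff.1 h
    exact Finset.prod_eq_zero (Finset.mem_univ k) (diagonal_apply_ne _ hk)

/-- The derivation of a nilpotent matrix is nilpotent. -/
theorem isNilpotent_tder (n : ℕ) {x : Matrix ι ι K} (hx : IsNilpotent x) :
    IsNilpotent (tder n x) := by
  have hf : ∀ k : Fin n, IsNilpotent (fac k x) := by
    intro k
    obtain ⟨m, hm⟩ := hx
    refine ⟨m + 1, ?_⟩
    have hp : ∀ j : ℕ, fac k x ^ (j + 1) = fac k (x ^ (j + 1)) := by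
      intro j
      induction j with
      | zero => simp
      | succ j ih => rw [pow_succ, ih, fac_fac, ← pow_succ]
    rw [hp, pow_succ, hm, zero_mul]
    ext I J
    simp [fac]
  rw [tder_eq]
  have : ∀ s : Finset (Fin n), IsNilpotent (∑ k ∈ s, fac k x) := by
    intro s
    induction s using Finset.induction_on with
    | empty => simp
    | insert a s ha ih =>
      rw [Finset.sum_insert ha]
      refine Commute.isNilpotent_add ?_ (hf a) ih
      exact Commute.sum_right _ _ _ fun b hb => fac_comm (fun h : a = b => ha (by rw [h]; exact hb)) x x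
  exact this _

theorem tpow_map {K' : Type} [CommRing K'] (n : ℕ) (f : K →+* K') (x : Matrix ι ι K) :
    tpow n (x.map f) = (tpow n x).map f := by
  ext I J
  simp only [tpow, Matrix.of_apply, Matrix.map_apply, map_prod]

end Pool.Agent.D0H93.MT
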