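import Pool.Agent.D0H93.MT.Basic

/-!
# Annihilators of families of endomorphisms of tensor powers
-/

set_option autoImplicit false
set_option linter.unusedSectionVars false
set_option linter.unusedVariables false

open Matrix

namespace Pool.Agent.D0H93.MT

variable {ι : Type} [Fintype ι] [DecidableEq ι] {K : Type} [Field K]

theorem Kills.one {n : ℕ} (c : Matrix (Fin n → ι) (Fin n → ι) K) :
    Kills (1 : Matrix ι ι K) c := by
  unfold Kills
  rw [tder_one, smul_mul_assoc, mul_smul_comm, one_mul, mul_one]

theorem Kills.lie {n : ℕ} {x y : Matrix ι ι K} {c : Matrix (Fin n → ι) (Fin n → ι) K}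
    (hx : Kills x c) (hy : Kills y c) : Kills (x * y - y * x) c := by
  unfold Kills at *
  rw [tder_lie, sub_mul, mul_sub, mul_assoc, mul_assoc, hy, hx, ← mul_assoc, ← mul_assoc, hx, hy,
    mul_assoc, mul_assoc]

/-- Conjugation by an invertible matrix. -/
theorem Kills.conj {n : ℕ} {g g' x : Matrix ι ι K} (hg : g * g' = 1) (hg' : g' * g = 1)
    {c : Matrix (Fin n → ι) (Fin n → ι) K} (hx : Kills x c) :
    Kills (g * x * g') (tpow n g * c * tpow n g') := by
  unfold Kills at *
  have e1 : tpow n g' * tpow n g = 1 := by rw [← tpow_mul, hg', tpow_one]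
  have e2 : tder n (g * x * g') * tpow n g = tpow n g * tder n x :=
    (tpow_tder n (by rw [mul_assoc, mul_assoc, hg', mul_one])).symm
  have e3 : tpow n g' * tder n (g * x * g') = tder n x * tpow n g' :=
    tpow_tder n (by rw [← mul_assoc, ← mul_assoc, hg', one_mul])
  calc tder n (g * x * g') * (tpow n g * c * tpow n g')
      = tder n (g * x * g') * tpow n g * c * tpow n g' := by simp only [mul_assoc]
    _ = tpow n g * (tder n x * c) * tpow n g' := by rw [e2]; simp only [mul_assoc]
    _ = tpow n g * c * (tder n x * tpow n g') := by rw [hx]; simp only [mul_assoc]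
    _ = tpow n g * c * tpow n g' * tder n (g * x * g') := by rw [← e3]; simp only [mul_assoc]

theorem Kills.of_conj {n : ℕ} {g g' x : Matrix ι ι K} (hg : g * g' = 1) (hg' : g' * g = 1)
    {c : Matrix (Fin n → ι) (Fin n → ι) K} (hx : Kills (g * x * g') (tpow n g * c * tpow n g')) :
    Kills x c := by
  have h := hx.conj hg' hg
  have e1 : tpow n g' * tpow n g = 1 := by rw [← tpow_mul, hg', tpow_one]
  have a1 : g' * (g * x * g') * g = x := by
    calc g' * (g * x * g') * g = (g' * g) * x * (g' * g) := by simp only [mul_assoc]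
      _ = x := by rw [hg', one_mul, mul_one]
  have a2 : tpow n g' * (tpow n g * c * tpow n g') * tpow n g = c := by
    calc tpow n g' * (tpow n g * c * tpow n g') * tpow n g
        = (tpow n g' * tpow n g) * c * (tpow n g' * tpow n g) := by simp only [mul_assoc]
      _ = c := by rw [e1, one_mul, mul_one]
  rwa [a1, a2] at h

/-- If `g` fixes `c`, then `c` is its own conjugate. -/
theorem Fixes.conj_eq {n : ℕ} {g g' : Matrix ι ι K} (hg : g * g' = 1)
    {c : Matrix (Fin n → ι) (Fin n → ι) K} (hx : Fixes g c) : tpow n g * c * tpow n g' = c := by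
  unfold Fixes at hx
  rw [hx, mul_assoc, ← tpow_mul, hg, tpow_one, mul_one]

theorem fixes_of_conj_eq {n : ℕ} {g g' : Matrix ι ι K} (hg' : g' * g = 1)
    {c : Matrix (Fin n → ι) (Fin n → ι) K} (hx : tpow n g * c * tpow n g' = c) : Fixes g c := by
  unfold Fixes
  conv_rhs => rw [← hx]
  rw [mul_assoc, ← tpow_mul, hg', tpow_one, mul_one]

theorem mem_ann {P : Family ι K} {x : Matrix ι ι K} :
    x ∈ ann P ↔ ∀ n c, P n c → Kills x c := Iff.rfl

theorem ann_lie {P : Family ι K} {x y : Matrix ι ι K} (hx : x ∈ ann P) (hy : y ∈ ann P) :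
    x * y - y * x ∈ ann P := fun n c hc => (hx n c hc).lie (hy n c hc)

theorem one_mem_ann (P : Family ι K) : (1 : Matrix ι ι K) ∈ ann P := fun _ c _ => Kills.one c

theorem scalar_mem_ann (P : Family ι K) (a : K) : (a • 1 : Matrix ι ι K) ∈ ann P :=
  (ann P).smul_mem a (one_mem_ann P)

theorem conj_mem_ann {P : Family ι K} {g g' x : Matrix ι ι K} (hg : g * g' = 1) (hg' : g' * g = 1)
    (hP : ∀ n c, P n c → Fixes g c) (hx : x ∈ ann P) : g * x * g' ∈ ann P := by
  intro n c hc
  have := (hx n c hc).conj hg hg'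
  rwa [(hP n c hc).conj_eq hg] at this

variable {L : Type} [Field L] [Algebra K L]

theorem tder_bc (n : ℕ) (x : Matrix ι ι K) : tder n (bc L x) = bc L (tder n x) := by
  ext I J
  simp only [tder, Matrix.of_apply, Matrix.map_apply, map_sum]
  exact Finset.sum_congr rfl fun k _ => by split_ifs <;> simp

theorem tpow_bc (n : ℕ) (x : Matrix ι ι K) : tpow n (bc L x) = bc L (tpow n x) := by
  ext I J
  simp only [tpow, Matrix.of_apply, Matrix.map_apply, map_prod]

theorem bc_injective {m m' : Type} {c c' : Matrix m m' K} (h : bc L c = bc L c') : c = c' := by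
  ext i j
  have := congrFun (congrFun h i) j
  simpa using this

theorem bc_mul {m m' m'' : Type} [Fintype m'] (c : Matrix m m' K) (c' : Matrix m' m'' K) :
    bc L (c * c') = bc L c * bc L c' := Matrix.map_mul

theorem kills_bc {n : ℕ} {x : Matrix ι ι K} {c : Matrix (Fin n → ι) (Fin n → ι) K} :
    Kills (bc L x) (bc L c) ↔ Kills x c := by
  unfold Kills
  rw [tder_bc, ← bc_mul, ← bc_mul]
  exact ⟨fun h => bc_injective h, fun h => by rw [h]⟩

/-- Apply a linear form to the coefficients. -/
abbrev co (f : L →ₗ[K] K) {m m' : Type} (c : Matrix m m' L) : Matrix m m' K := c.map f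

theorem tder_co (n : ℕ) (f : L →ₗ[K] K) (x : Matrix ι ι L) : tder n (co f x) = co f (tder n x) := by
  ext I J
  simp only [tder, Matrix.of_apply, Matrix.map_apply, map_sum]
  exact Finset.sum_congr rfl fun k _ => by split_ifs <;> simp

theorem co_mul_bc {m m' m'' : Type} [Fintype m'] (f : L →ₗ[K] K) (x : Matrix m m' L)
    (c : Matrix m' m'' K) : co f (x * bc L c) = co f x * c := by
  ext i j
  simp only [Matrix.map_apply, Matrix.mul_apply, map_sum]
  refine Finset.sum_congr rfl fun k _ => ?_
  rw [mul_comm, ← Algebra.smul_def, map_smul, smul_eq_mul, mul_comm]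

theorem co_bc_mul {m m' m'' : Type} [Fintype m'] (f : L →ₗ[K] K) (c : Matrix m m' K)
    (x : Matrix m' m'' L) : co f (bc L c * x) = c * co f x := by
  ext i j
  simp only [Matrix.map_apply, Matrix.mul_apply, map_sum]
  refine Finset.sum_congr rfl fun k _ => ?_
  rw [← Algebra.smul_def, map_smul, smul_eq_mul]

theorem ext_of_co {m m' : Type} {x y : Matrix m m' L} (h : ∀ f : L →ₗ[K] K, co f x = co f y) :
    x = y := by
  ext i j
  rw [← sub_eq_zero, ← Module.forall_dual_apply_eq_zero_iff K]
  intro f
  rw [map_sub, sub_eq_zero]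
  exact congrFun (congrFun (h f) i) j

theorem kills_co {n : ℕ} {x : Matrix ι ι L} {c : Matrix (Fin n → ι) (Fin n → ι) K} :
    Kills x (bc L c) ↔ ∀ f : L →ₗ[K] K, Kills (co f x) c := by
  unfold Kills
  constructor
  · intro h f
    rw [tder_co, ← co_mul_bc, h, co_bc_mul]
  · intro h
    refine ext_of_co (K := K) fun f => ?_
    rw [co_mul_bc, co_bc_mul, ← tder_co, h f]

theorem mem_ann_ext {P : Family ι K} {x : Matrix ι ι L} :
    x ∈ ann (ext L P) ↔ ∀ f : L →ₗ[K] K, co f x ∈ ann P := by
  constructor
  · intro h f n c hc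
    exact kills_co.1 (h n _ ⟨c, hc, rfl⟩) f
  · rintro h n _ ⟨c, hc, rfl⟩
    exact kills_co.2 fun f => h f n c hc

theorem bc_mem_ann_ext {P : Family ι K} {x : Matrix ι ι K} :
    bc L x ∈ ann (ext L P) ↔ x ∈ ann P := by
  constructor
  · intro h n c hc
    exact kills_bc.1 (h n _ ⟨c, hc, rfl⟩)
  · rintro h n _ ⟨c, hc, rfl⟩
    exact kills_bc.2 (h n c hc)

theorem trace_co (f : L →ₗ[K] K) (x : Matrix ι ι L) : (co f x).trace = f x.trace := by
  simp [Matrix.trace, Matrix.diag, map_sum]

/-- A matrix all of whose coordinates are in `N` is a linear combination of elements of `N`. -/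
theorem mem_span_of_co {m m' : Type} [Finite m] [Finite m'] (N : Submodule K (Matrix m m' K))
    {x : Matrix m m' L}
    (h : ∀ f : L →ₗ[K] K, co f x ∈ N) : 
    x ∈ Submodule.span L ((fun y : Matrix m m' K => bc L y) '' (N : Set (Matrix m m' K))) := by
  classical
  have := Fintype.ofFinite m
  have := Fintype.ofFinite m'
  set b := Module.Basis.ofVectorSpace K L with hb
  set s : Finset _ := Finset.univ.biUnion fun i : m => Finset.univ.biUnion fun j : m' =>
    (b.repr (x i j)).support with hs
  have hx : x = ∑ a ∈ s, b a • bc L (co (b.coord a) x) := by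
    ext i j
    rw [Matrix.sum_apply]
    have h1 : x i j = ∑ a ∈ (b.repr (x i j)).support, b.repr (x i j) a • b a := by
      conv_lhs => rw [← b.linearCombination_repr (x i j), Finsupp.linearCombination_apply,
        Finsupp.sum]
    have h2 : (b.repr (x i j)).support ⊆ s := by
      intro a ha
      simp only [hs, Finset.mem_biUnion, Finset.mem_univ, true_and]
      exact ⟨i, j, ha⟩
    rw [h1, Finset.sum_subset h2]
    · refine Finset.sum_congr rfl fun a _ => ?_
      simp only [Matrix.smul_apply, Matrix.map_apply, Module.Basis.coord_apply, smul_eq_mul]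
      rw [Algebra.smul_def, mul_comm]
    · intro a _ ha
      rw [Finsupp.notMem_support_iff.1 ha, zero_smul]
  rw [hx]
  exact Submodule.sum_mem _ fun a _ => Submodule.smul_mem _ _
    (Submodule.subset_span ⟨_, h (b.coord a), rfl⟩)

end Pool.Agent.D0H93.MT
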