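import Pool.Agent.D0H93.MT.Replica

/-!
# The trace form of a reductive annihilator is nondegenerate
-/

set_option autoImplicit false
set_option linter.unusedSectionVars false
set_option linter.unusedVariables false

open Matrix

attribute [local instance 100] LieRing.ofAssociativeRing

namespace Pool.Agent.D0H93.MT

variable {ι : Type} [Fintype ι] [DecidableEq ι] {K : Type} [Field K]

/-- The radical of the trace form on the annihilator. -/
def rad (P : Family ι K) : Submodule K (Matrix ι ι K) where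
  carrier := {x | x ∈ ann P ∧ ∀ y ∈ ann P, (x * y).trace = 0}
  add_mem' hx hy := ⟨add_mem hx.1 hy.1, fun z hz => by
    rw [add_mul, trace_add, hx.2 z hz, hy.2 z hz, add_zero]⟩
  zero_mem' := ⟨zero_mem _, fun z _ => by rw [zero_mul, trace_zero]⟩
  smul_mem' a _ hx := ⟨Submodule.smul_mem _ a hx.1, fun z hz => by
    rw [smul_mul_assoc, trace_smul, hx.2 z hz, smul_zero]⟩

theorem mem_rad {P : Family ι K} {x : Matrix ι ι K} :
    x ∈ rad P ↔ x ∈ ann P ∧ ∀ y ∈ ann P, (x * y).trace = 0 := Iff.rfl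

theorem trace_lie (x y z : Matrix ι ι K) :
    ((x * y - y * x) * z).trace = (x * (y * z - z * y)).trace := by
  rw [sub_mul, mul_sub, trace_sub, trace_sub, mul_assoc, ← mul_assoc x z y,
    trace_mul_comm (x * z) y, mul_assoc y x z]

theorem rad_lie {P : Family ι K} {x y : Matrix ι ι K} (hx : x ∈ rad P) (hy : y ∈ ann P) :
    x * y - y * x ∈ rad P :=
  ⟨ann_lie hx.1 hy, fun z hz => by rw [trace_lie]; exact hx.2 _ (ann_lie hy hz)⟩

theorem isNilpotent_of_mem_rad [CharZero K] {P : Family ι K} {x : Matrix ι ι K}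
    (hx : x ∈ rad P) : IsNilpotent x := by
  have h := isNilpotent_of_radical (ext (AlgebraicClosure K) P)
    (x := bc (AlgebraicClosure K) x) (bc_mem_ann_ext.2 hx.1) (fun y hy => by
      rw [← Module.forall_dual_apply_eq_zero_iff K]
      intro f
      rw [← trace_co, co_bc_mul]
      exact hx.2 _ (mem_ann_ext.1 hy f))
  have e : bc (AlgebraicClosure K) x = (algebraMap K (AlgebraicClosure K)).mapMatrix x := rfl
  rw [e] at h
  refine (IsNilpotent.map_iff ?_).1 h
  intro a b hab
  exact bc_injective (L := AlgebraicClosure K) hab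

/-- The radical as a Lie algebra. -/
def radLie (P : Family ι K) : LieSubalgebra K (Matrix ι ι K) :=
  { rad P with
    lie_mem' := fun {x y} hx hy => by
      have := rad_lie hx hy.1
      rwa [Ring.lie_def] }

/-- Engel's theorem for the radical. -/
theorem exists_killed [CharZero K] {P : Family ι K} {U : Submodule K (ι → K)}
    (hU : ∀ x ∈ rad P, ∀ u ∈ U, x *ᵥ u ∈ U) (h0 : U ≠ ⊥) :
    ∃ u ∈ U, u ≠ 0 ∧ ∀ x ∈ rad P, x *ᵥ u = 0 := by
  let M : LieSubmodule K (radLie P) (ι → K) :=
    { U with lie_mem := fun {x m} hm => hU x.1 x.2 m hm }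
  have hpow : ∀ (x : radLie P) (k : ℕ) (m : M),
      (((LieModule.toEnd K (radLie P) M x) ^ k) m : ι → K) = (x.1 ^ k) *ᵥ (m : ι → K) := by
    intro x k
    induction k with
    | zero => intro m; simp
    | succ k ih =>
      intro m
      rw [pow_succ, Module.End.mul_apply, ih, pow_succ, ← Matrix.mulVec_mulVec]
      rfl
  have hnil : LieModule.IsNilpotent (radLie P) M := by
    rw [LieModule.isNilpotent_iff_forall (R := K)]
    intro x
    obtain ⟨k, hk⟩ := isNilpotent_of_mem_rad x.2
    refine ⟨k, LinearMap.ext fun m => Subtype.ext ?_⟩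
    rw [hpow, hk]
    simp
  have hnt : Nontrivial M := by
    obtain ⟨u, hu, hu0⟩ := (Submodule.ne_bot_iff U).1 h0
    exact ⟨⟨u, hu⟩, 0, fun h => hu0 (congrArg Subtype.val h)⟩
  have := LieModule.nontrivial_max_triv_of_isNilpotent K (radLie P) M
  obtain ⟨m, hm⟩ := exists_ne (0 : LieModule.maxTrivSubmodule K (radLie P) M)
  have hm2 := (LieModule.mem_maxTrivSubmodule K (radLie P) M m.1).1 m.2
  refine ⟨m.1.1, m.1.2, fun h => hm (Subtype.ext (Subtype.ext h)), fun x hx => ?_⟩
  exact congrArg Subtype.val (hm2 ⟨x, hx⟩)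

theorem rad_eq_bot [CharZero K] {P : Family ι K} (hss : Semisimple (ann P)) : rad P = ⊥ := by
  -- the vectors killed by the radical
  let U : Submodule K (ι → K) :=
    { carrier := {u | ∀ x ∈ rad P, x *ᵥ u = 0}
      add_mem' := fun {a b} ha hb x hx => by rw [Matrix.mulVec_add, ha x hx, hb x hx, add_zero]
      zero_mem' := fun x _ => Matrix.mulVec_zero x
      smul_mem' := fun c a ha x hx => by rw [Matrix.mulVec_smul, ha x hx, smul_zero] }
  have hU : ∀ x ∈ ann P, ∀ u ∈ U, x *ᵥ u ∈ U := by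
    intro y hy u hu x hx
    have h1 := hu _ (rad_lie hx hy)
    rw [Matrix.sub_mulVec, ← Matrix.mulVec_mulVec, ← Matrix.mulVec_mulVec, hu x hx,
      Matrix.mulVec_zero, sub_zero] at h1
    exact h1
  obtain ⟨U', hU', hc⟩ := hss U hU
  have hbot : U' = ⊥ := by
    by_contra hne
    obtain ⟨u, hu, hu0, hk⟩ := exists_killed (P := P) (fun x hx => hU' x hx.1) hne
    exact hu0 (Submodule.disjoint_def.1 hc.disjoint u hk hu)
  have htop : U = ⊤ := by
    have := hc.sup_eq_top
    rwa [hbot, sup_bot_eq] at this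
  rw [eq_bot_iff]
  intro x hx
  rw [Submodule.mem_bot]
  ext i j
  have hu : (Pi.single j 1 : ι → K) ∈ U := htop ▸ Submodule.mem_top
  have := congrFun (hu x hx) i
  rw [Matrix.mulVec_single_one] at this
  exact this

/-- The trace form on `N` is nondegenerate. -/
def TraceNondeg (N : Submodule K (Matrix ι ι K)) : Prop :=
  ∀ x ∈ N, (∀ y ∈ N, (x * y).trace = 0) → x = 0

theorem traceNondeg [CharZero K] {P : Family ι K} (hss : Semisimple (ann P)) :
    TraceNondeg (ann P) := by
  intro x hx h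
  have : x ∈ rad P := ⟨hx, h⟩
  rw [rad_eq_bot hss] at this
  exact (Submodule.mem_bot K).1 this

/-- The trace form. -/
def trForm (ι K : Type) [Fintype ι] [DecidableEq ι] [Field K] :
    LinearMap.BilinForm K (Matrix ι ι K) :=
  LinearMap.mk₂ K (fun x y => (x * y).trace)
    (fun x x' y => by rw [add_mul, trace_add]) (fun a x y => by rw [smul_mul_assoc, trace_smul])
    (fun x y y' => by rw [mul_add, trace_add]) (fun a x y => by rw [mul_smul_comm, trace_smul])

theorem trForm_apply (x y : Matrix ι ι K) : trForm ι K x y = (x * y).trace := rfl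

theorem exists_projector {N : Submodule K (Matrix ι ι K)} (hN : TraceNondeg N) :
    ∃ φ, IsProjector N φ := by
  have hrefl : (trForm ι K).IsRefl := by
    intro x y h
    rw [trForm_apply] at h ⊢
    rw [trace_mul_comm, h]
  have hnd : ((trForm ι K).restrict N).Nondegenerate := by
    rw [LinearMap.BilinForm.nondegenerate_iff_ker_eq_bot, LinearMap.ker_eq_bot']
    intro x hx
    refine Subtype.ext (hN x.1 x.2 fun y hy => ?_)
    exact LinearMap.congr_fun hx (⟨y, hy⟩ : N)
  have hc := LinearMap.BilinForm.isCompl_orthogonal_of_restrict_nondegenerate hrefl hnd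
  refine ⟨N.subtype ∘ₗ Submodule.projectionOnto N _ hc, fun y => (Submodule.projectionOnto N _ hc y).2, ?_⟩
  intro y z hz
  have h1 : y - (Submodule.projectionOnto N _ hc y : Matrix ι ι K) ∈
      (trForm ι K).orthogonal N := by
    refine (SetLike.ext_iff.1 (Submodule.ker_projectionOnto hc) _).1 ?_
    rw [LinearMap.mem_ker, map_sub, Submodule.projectionOnto_apply_left, sub_self]
  have h2 : (z * (y - (Submodule.projectionOnto N _ hc y : Matrix ι ι K))).trace = 0 := h1 z hz
  rw [mul_sub, trace_sub, sub_eq_zero] at h2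
  rw [trace_mul_comm y z, h2, trace_mul_comm]
  rfl

theorem IsProjector.eq {N : Submodule K (Matrix ι ι K)} (hN : TraceNondeg N)
    {φ : Matrix ι ι K →ₗ[K] Matrix ι ι K} (hφ : IsProjector N φ) {y y' : Matrix ι ι K}
    (h : y' ∈ N) (h' : ∀ z ∈ N, (y' * z).trace = (y * z).trace) : φ y = y' := by
  rw [← sub_eq_zero]
  refine hN _ (sub_mem (hφ.1 y) h) fun z hz => ?_
  rw [sub_mul, trace_sub, hφ.2 y z hz, h' z hz, sub_self]

theorem IsProjector.apply_of_mem {N : Submodule K (Matrix ι ι K)} (hN : TraceNondeg N)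
    {φ : Matrix ι ι K →ₗ[K] Matrix ι ι K} (hφ : IsProjector N φ) {y : Matrix ι ι K}
    (h : y ∈ N) : φ y = y := hφ.eq hN h fun _ _ => rfl

/-- The main algebraic step. -/
theorem core {H G : Submodule K (Matrix ι ι K)} (hle : H ≤ G) (hH : TraceNondeg H)
    {φ : Matrix ι ι K →ₗ[K] Matrix ι ι K} (hφ : IsProjector H φ)
    (h2 : ∀ x ∈ G, ∀ y, φ (x * y - y * x) = x * φ y - φ y * x) {x : Matrix ι ι K} (hx : x ∈ G) :
    x - φ x ∈ G ∧ ∀ y ∈ H, y * (x - φ x) = (x - φ x) * y := by
  have hd : x - φ x ∈ G := sub_mem hx (hle (hφ.1 x))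
  refine ⟨hd, fun y hy => ?_⟩
  have h0 : φ (x - φ x) = 0 := by
    rw [map_sub, hφ.apply_of_mem hH (hφ.1 x), sub_self]
  -- the bracket is in `H`
  have e1 := h2 _ hd y
  rw [hφ.apply_of_mem hH hy] at e1
  have e2 := h2 y (hle hy) (x - φ x)
  rw [h0, mul_zero, zero_mul, sub_zero] at e2
  have e3 : φ ((x - φ x) * y - y * (x - φ x)) = 0 := by
    rw [← neg_sub, map_neg, e2, neg_zero]
  rw [e3] at e1
  exact (sub_eq_zero.1 e1.symm).symm

end Pool.Agent.D0H93.MT
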