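import Mathlib

/-!
# Tensor powers in coordinates, annihilators, Hodge structures: definitions

`V = K ^ ι`; the endomorphisms of the `n`-th tensor power of `V` are the matrices whose rows and columns
are indexed by `Fin n → ι`.
-/

set_option autoImplicit false
set_option linter.unusedSectionVars false

open Matrix

namespace Pool.Agent.D0H93.MT

section Ring

variable {ι : Type} [Fintype ι] [DecidableEq ι] {K : Type} [CommRing K]

/-- The matrix of `g ⊗ ⋯ ⊗ g` on the `n`-th tensor power. -/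
def tpow (n : ℕ) (g : Matrix ι ι K) : Matrix (Fin n → ι) (Fin n → ι) K :=
  Matrix.of fun I J => ∏ k, g (I k) (J k)

/-- The matrix of `∑ 1 ⊗ ⋯ ⊗ x ⊗ ⋯ ⊗ 1` on the `n`-th tensor power. -/
def tder (n : ℕ) (x : Matrix ι ι K) : Matrix (Fin n → ι) (Fin n → ι) K :=
  Matrix.of fun I J => ∑ k, if ∀ l, l ≠ k → I l = J l then x (I k) (J k) else 0

/-- Families of endomorphisms of the tensor powers of `K ^ ι`. -/
abbrev Family (ι K : Type) := ∀ n : ℕ, Matrix (Fin n → ι) (Fin n → ι) K → Prop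

/-- The operator `∑ 1 ⊗ ⋯ ⊗ x ⊗ ⋯ ⊗ 1` commutes with `c`. -/
def Kills {n : ℕ} (x : Matrix ι ι K) (c : Matrix (Fin n → ι) (Fin n → ι) K) : Prop :=
  tder n x * c = c * tder n x

/-- The operator `g ⊗ ⋯ ⊗ g` commutes with `c`. -/
def Fixes {n : ℕ} (g : Matrix ι ι K) (c : Matrix (Fin n → ι) (Fin n → ι) K) : Prop :=
  tpow n g * c = c * tpow n g

theorem tder_add (n : ℕ) (x y : Matrix ι ι K) : tder n (x + y) = tder n x + tder n y := by
  ext I J
  simp only [tder, Matrix.of_apply, Matrix.add_apply, ← Finset.sum_add_distrib]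
  exact Finset.sum_congr rfl fun k _ => by split_ifs <;> simp

theorem tder_smul (n : ℕ) (a : K) (x : Matrix ι ι K) : tder n (a • x) = a • tder n x := by
  ext I J
  simp only [tder, Matrix.of_apply, Matrix.smul_apply, Finset.smul_sum]
  exact Finset.sum_congr rfl fun k _ => by split_ifs <;> simp

theorem tder_zero (n : ℕ) : tder n (0 : Matrix ι ι K) = 0 := by
  have := tder_smul n (0 : K) (0 : Matrix ι ι K)
  simpa using this

theorem Kills.add {n : ℕ} {x y : Matrix ι ι K} {c : Matrix (Fin n → ι) (Fin n → ι) K}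
    (hx : Kills x c) (hy : Kills y c) : Kills (x + y) c := by
  unfold Kills at *
  rw [tder_add, add_mul, mul_add, hx, hy]

theorem Kills.smul {n : ℕ} (a : K) {x : Matrix ι ι K} {c : Matrix (Fin n → ι) (Fin n → ι) K}
    (hx : Kills x c) : Kills (a • x) c := by
  unfold Kills at *
  rw [tder_smul, smul_mul_assoc, mul_smul_comm, hx]

theorem Kills.zero {n : ℕ} (c : Matrix (Fin n → ι) (Fin n → ι) K) :
    Kills (0 : Matrix ι ι K) c := by
  unfold Kills
  rw [tder_zero, zero_mul, mul_zero]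

end Ring

variable {ι : Type} [Fintype ι] [DecidableEq ι] {K : Type} [Field K]

/-- The Lie algebra of the group of the `g` whose tensor powers commute with the family. -/
def ann (P : Family ι K) : Submodule K (Matrix ι ι K) where
  carrier := {x | ∀ n c, P n c → Kills x c}
  add_mem' hx hy n c hc := (hx n c hc).add (hy n c hc)
  zero_mem' _ c _ := Kills.zero c
  smul_mem' a _ hx n c hc := (hx n c hc).smul a

/-- Every subspace which is stable under `N` has a complement which is stable under `N`. -/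
def Semisimple (N : Submodule K (Matrix ι ι K)) : Prop :=
  ∀ U : Submodule K (ι → K), (∀ x ∈ N, ∀ u ∈ U, x *ᵥ u ∈ U) →
    ∃ U' : Submodule K (ι → K), (∀ x ∈ N, ∀ u ∈ U', x *ᵥ u ∈ U') ∧ IsCompl U U'

/-- `φ` is the orthogonal projector of the space of all matrices onto `N`, for the trace form. -/
def IsProjector (N : Submodule K (Matrix ι ι K)) (φ : Matrix ι ι K →ₗ[K] Matrix ι ι K) : Prop :=
  (∀ y, φ y ∈ N) ∧ ∀ y, ∀ z ∈ N, (φ y * z).trace = (y * z).trace

/-- The endomorphism `c` of `V ⊗ V` which corresponds to the endomorphism `φ` of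
`End V = V ⊗ V^*` under the identification of `End (V ⊗ V^*)` and `End (V ⊗ V)`. -/
def tens (φ : Matrix ι ι K →ₗ[K] Matrix ι ι K) : Matrix (Fin 2 → ι) (Fin 2 → ι) K :=
  Matrix.of fun I J => φ (Matrix.single (J 0) (I 1) 1) (I 0) (J 1)

/-- The endomorphism `u ⊗ v ↦ Q(u, v) T` of `V ⊗ V`. -/
def rankOne (T Q : Matrix ι ι K) : Matrix (Fin 2 → ι) (Fin 2 → ι) K :=
  Matrix.of fun I J => T (I 0) (I 1) * Q (J 0) (J 1)

/-- No factors of type IV: the involution of the form `Q` is trivial on the centre of the algebra of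
the endomorphisms which commute with `N`. -/
def NoTypeIV (N : Submodule ℚ (Matrix ι ι ℚ)) (Q : Matrix ι ι ℚ) : Prop :=
  ∀ z, (∀ x ∈ N, x * z = z * x) → (∀ y, (∀ x ∈ N, x * y = y * x) → y * z = z * y) →
    zᵀ * Q = Q * z

/-- The class of the form `Q`: the endomorphism `u ⊗ v ↦ Q(u, v) Q⁻¹` of `V ⊗ V`. -/
noncomputable def formClass (Q : Matrix ι ι ℚ) : Matrix (Fin 2 → ι) (Fin 2 → ι) ℚ := rankOne Q⁻¹ Q

variable {L : Type} [Field L] [Algebra K L]

/-- The matrix with coefficients extended to `L`. -/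
abbrev bc (L : Type) [Field L] [Algebra K L] {m m' : Type} (c : Matrix m m' K) : Matrix m m' L :=
  c.map (algebraMap K L)

/-- The family with coefficients extended to `L`. -/
def ext (L : Type) [Field L] [Algebra K L] (P : Family ι K) : Family ι L :=
  fun n c => ∃ c₀, P n c₀ ∧ c = bc L c₀

variable {Γ : Type} [Group Γ]

/-- The endomorphism `c` of a tensor power is fixed by a subgroup of finite index. -/
def IsTate (ρ : Γ →* (Matrix ι ι K)ˣ) : Family ι K :=
  fun _ c => ∃ Δ : Subgroup Γ, Δ.FiniteIndex ∧ ∀ g ∈ Δ, Fixes (ρ g : Matrix ι ι K) c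

/-- Every subspace which is stable under the group has a stable complement. -/
def SemisimpleRep (ρ : Γ →* (Matrix ι ι K)ˣ) : Prop :=
  ∀ U : Submodule K (ι → K), (∀ g, ∀ u ∈ U, (ρ g : Matrix ι ι K) *ᵥ u ∈ U) →
    ∃ U' : Submodule K (ι → K), (∀ g, ∀ u ∈ U', (ρ g : Matrix ι ι K) *ᵥ u ∈ U') ∧ IsCompl U U'

/-- A Hodge structure of weight `w` on `ℚ ^ ι`: for `z ≠ 0` the operator `h z` acts on `V^{p, w - p}` by
`z ^ p (conj z) ^ (w - p)`. -/
structure HodgeStructure (ι : Type) [Fintype ι] [DecidableEq ι] (w : ℤ) where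
  /-- the action of `z` -/
  h : ℂ → Matrix ι ι ℂ
  /-- the operators are real -/
  real : ∀ z, z ≠ 0 → (h z).map (starRingEnd ℂ) = h z
  /-- there is a basis of `ℂ ^ ι` which consists of elements of the spaces `V^{p, w - p}` -/
  exists_basis : ∃ (B B' : Matrix ι ι ℂ) (p : ι → ℤ), B * B' = 1 ∧ B' * B = 1 ∧
    ∀ z, z ≠ 0 → h z = B * diagonal (fun i => z ^ p i * (starRingEnd ℂ z) ^ (w - p i)) * B'

variable {w : ℤ}

/-- The rational endomorphism `c` of the `n`-th tensor power is an endomorphism of Hodge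
structures. -/
def HodgeStructure.IsHodge (S : HodgeStructure ι w) : Family ι ℚ :=
  fun _ c => ∀ z, z ≠ 0 → Fixes (S.h z) (bc ℂ c)

/-- The number `Q (C u, v)`, where `C = h(i)` is the Weil operator. -/
noncomputable def HodgeStructure.form (S : HodgeStructure ι w) (Q : Matrix ι ι ℚ) (u v : ι → ℝ) : ℂ :=
  (S.h Complex.I *ᵥ fun i => (u i : ℂ)) ⬝ᵥ (bc ℂ Q *ᵥ fun i => (v i : ℂ))

/-- `Q` is a polarization. -/
structure HodgeStructure.IsPolarization (S : HodgeStructure ι w) (Q : Matrix ι ι ℚ) : Prop where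
  sym : Qᵀ = (-1 : ℚ) ^ w • Q
  compat : ∀ z, z ≠ 0 → (S.h z)ᵀ * bc ℂ Q * S.h z = (z * (starRingEnd ℂ) z) ^ w • bc ℂ Q
  pos : ∀ u : ι → ℝ, u ≠ 0 → 0 < (S.form Q u u).re

end Pool.Agent.D0H93.MT
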