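import Pool.Agent.D0H93.MT.Ann

/-!
# Replicas, and the trace form of an annihilator
-/

set_option autoImplicit false
set_option linter.unusedSectionVars false
set_option linter.unusedVariables false

open Matrix

namespace Pool.Agent.D0H93.MT

section Jordan

variable {F : Type} [Field F]

/-- If `c` commutes with `diagonal σ + N`, where `N` is nilpotent and commutes with `diagonal σ`, then
`c` commutes with `diagonal σ`. -/
theorem commute_diagonal {m : Type} [Fintype m] [DecidableEq m] {σ : m → F} {N c : Matrix m m F}
    (hN : IsNilpotent N) (hc : Commute N (diagonal σ)) (h : Commute c (diagonal σ + N)) (I J : m) :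
    c I J = 0 ∨ σ I = σ J := by
  set D : Matrix m m F := diagonal σ with hD
  -- the operators `ad D` and `ad N`
  set aD : Module.End F (Matrix m m F) := LinearMap.mulLeft F D - LinearMap.mulRight F D with haD
  set aN : Module.End F (Matrix m m F) := LinearMap.mulLeft F N - LinearMap.mulRight F N with haN
  have hnil : IsNilpotent aN := by
    refine Commute.isNilpotent_sub ?_ ?_ ?_
    · exact LinearMap.commute_mulLeft_right _ _
    · obtain ⟨k, hk⟩ := hN
      exact ⟨k, by rw [LinearMap.pow_mulLeft, hk]; ext1; simp⟩
    · obtain ⟨k, hk⟩ := hN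
      exact ⟨k, by rw [LinearMap.pow_mulRight, hk]; ext1; simp⟩
  have hcomm : Commute aD aN := by
    have hx : ∀ X : Matrix m m F, aD (aN X) = aN (aD X) := by
      intro X
      simp only [haD, haN, LinearMap.sub_apply, LinearMap.mulLeft_apply, LinearMap.mulRight_apply]
      have e : N * D = D * N := hc
      simp only [mul_sub, sub_mul, ← mul_assoc]
      rw [e]
      simp only [mul_assoc]
      rw [e]
      abel
    exact LinearMap.ext fun X => hx X
  have h0 : aD c = - aN c := by
    have e : c * (D + N) = (D + N) * c := h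
    simp only [haD, haN, LinearMap.sub_apply, LinearMap.mulLeft_apply, LinearMap.mulRight_apply]
    rw [mul_add, add_mul] at e
    have : D * c - c * D + (N * c - c * N) = (D * c + N * c) - (c * D + c * N) := by abel
    rw [eq_neg_iff_add_eq_zero, this, e, sub_self]
  have hk : ∀ k : ℕ, (aD ^ k) c = (-1 : F) ^ k • (aN ^ k) c := by
    intro k
    induction k with
    | zero => simp
    | succ k ih =>
      rw [pow_succ', Module.End.mul_apply, ih, map_smul]
      have e : aD ((aN ^ k) c) = (aN ^ k) (aD c) := by
        have := (hcomm.pow_right k).eq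
        exact LinearMap.congr_fun this c
      rw [e, h0, map_neg, pow_succ (-1 : F), pow_succ aN, Module.End.mul_apply]
      simp
  have he : ∀ (k : ℕ) (X : Matrix m m F), ((aD ^ k) X) I J = (σ I - σ J) ^ k * X I J := by
    intro k
    induction k with
    | zero => intro X; simp
    | succ k ih =>
      intro X
      rw [pow_succ, Module.End.mul_apply, ih]
      simp only [haD, LinearMap.sub_apply, LinearMap.mulLeft_apply, LinearMap.mulRight_apply, hD,
        Matrix.sub_apply, Matrix.diagonal_mul, Matrix.mul_diagonal]
      ring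
  obtain ⟨k, hk0⟩ := hnil
  have := he k c
  rw [hk k, hk0] at this
  simp only [LinearMap.zero_apply, smul_zero, Matrix.zero_apply] at this
  rcases mul_eq_zero.1 this.symm with h1 | h1
  · right
    exact sub_eq_zero.1 (IsReduced.eq_zero _ ⟨k, h1⟩)
  · left; exact h1

end Jordan

variable {ι : Type} [Fintype ι] [DecidableEq ι]

/-- The Jordan decomposition of a matrix in coordinates. -/
theorem exists_jordan {F : Type} [Field F] [CharZero F] [IsAlgClosed F] (x : Matrix ι ι F) :
    ∃ (B B' : Matrix ι ι F) (a : ι → F) (ν : Matrix ι ι F), B * B' = 1 ∧ B' * B = 1 ∧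
      x = B * (diagonal a + ν) * B' ∧ IsNilpotent ν ∧ Commute ν (diagonal a) := by
  obtain ⟨n, hn, s, hs, hnil, hss, hf⟩ :=
    Module.End.exists_isNilpotent_isSemisimple (K := F) (f := Matrix.toLin' x)
  have hcomm : Commute n s := Algebra.commute_of_mem_adjoin_singleton_of_commute hs
    (Algebra.commute_of_mem_adjoin_singleton_of_commute hn (Commute.refl _)).symm
  have htop : ⊤ ≤ Submodule.span F {v : ι → F | ∃ μ : F, v ∈ s.eigenspace μ} := by
    rw [← hss.iSup_eigenspace_eq_top]
    refine iSup_le fun μ v hv => Submodule.subset_span ⟨μ, hv⟩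
  let b₀ := Module.Basis.ofSpan htop
  have hb₀ : ∀ i, ∃ μ : F, b₀ i ∈ s.eigenspace μ := fun i =>
    Module.Basis.ofSpan_subset htop ⟨i, rfl⟩
  let e := b₀.indexEquiv (Pi.basisFun F ι)
  let b := b₀.reindex e
  have hb : ∀ i, ∃ μ : F, b i ∈ s.eigenspace μ := fun i => by
    simp only [b, Module.Basis.reindex_apply]
    exact hb₀ _
  choose a ha using hb
  have hd : LinearMap.toMatrix b b s = diagonal a := by
    ext i j
    rw [LinearMap.toMatrix_apply, Module.End.mem_eigenspace_iff.1 (ha j)]
    by_cases h : i = j
    · subst h; simp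
    · rw [map_smul, diagonal_apply_ne _ h]
      simp [Ne.symm h]
  refine ⟨(Pi.basisFun F ι).toMatrix b, b.toMatrix (Pi.basisFun F ι), a, LinearMap.toMatrix b b n,
    Module.Basis.toMatrix_mul_toMatrix_flip _ _, Module.Basis.toMatrix_mul_toMatrix_flip _ _, ?_, ?_, ?_⟩
  · rw [← hd, ← map_add, add_comm, ← hf, basis_toMatrix_mul_linearMap_toMatrix_mul_basis_toMatrix]
    exact (LinearMap.toMatrix'_toLin' x).symm
  · obtain ⟨k, hk⟩ := hnil
    refine ⟨k, ?_⟩
    have : LinearMap.toMatrix b b n ^ k = LinearMap.toMatrixAlgEquiv b (n ^ k) := by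
      rw [map_pow]; rfl
    rw [this, hk, map_zero]
  · rw [← hd]
    exact hcomm.map (LinearMap.toMatrixAlgEquiv b)

/-- **Replicas.** Let `x` be a matrix in the annihilator of a family, with zero trace pairing with all
elements of the annihilator. Then `x` is nilpotent. -/
theorem isNilpotent_of_radical {F : Type} [Field F] [CharZero F] [IsAlgClosed F] (P : Family ι F)
    {x : Matrix ι ι F} (hx : x ∈ ann P) (h0 : ∀ y ∈ ann P, (x * y).trace = 0) : IsNilpotent x := by
  obtain ⟨B, B', a, ν, hB, hB', hxe, hν, hc⟩ := exists_jordan x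
  -- the replica attached to an additive function
  have hrep : ∀ φ : F →+ F, B * diagonal (fun i => φ (a i)) * B' ∈ ann P := by
    intro φ n c hPc
    have h1 := hx n c hPc
    refine Kills.of_conj hB' hB (?_ : Kills (B' * (B * diagonal (fun i => φ (a i)) * B') * B) _)
    have e0 : B' * (B * diagonal (fun i => φ (a i)) * B') * B = diagonal fun i => φ (a i) := by
      calc _ = (B' * B) * diagonal (fun i => φ (a i)) * (B' * B) := by simp only [mul_assoc]
        _ = _ := by rw [hB', one_mul, mul_one]
    have e1 : B' * x * B = diagonal a + ν := by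
      rw [hxe]
      calc _ = (B' * B) * (diagonal a + ν) * (B' * B) := by simp only [mul_assoc]
        _ = _ := by rw [hB', one_mul, mul_one]
    have h2 := h1.conj hB' hB
    rw [e1] at h2
    rw [e0]
    unfold Kills at h2 ⊢
    set c' := tpow n B' * c * tpow n B with hc'
    have hnil := isNilpotent_tder n hν
    have hcomm : Commute (tder n ν) (diagonal fun I : Fin n → ι => ∑ k, a (I k)) := by
      have e := tder_lie n ν (diagonal a)
      rw [(hc.eq : ν * diagonal a = diagonal a * ν), sub_self, tder_zero, tder_diagonal] at e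
      exact sub_eq_zero.1 e.symm
    rw [tder_add, tder_diagonal] at h2
    have key := fun I J => commute_diagonal (c := c') hnil hcomm h2.symm I J
    rw [tder_diagonal]
    ext I J
    rw [Matrix.diagonal_mul, Matrix.mul_diagonal]
    rcases key I J with h | h
    · rw [h, mul_zero, zero_mul]
    · rw [← map_sum, ← map_sum, h, mul_comm]
  have htr : ∀ φ : F →+ F, ∑ i, a i * φ (a i) = 0 := by
    intro φ
    have h := h0 _ (hrep φ)
    have e1 : x * (B * diagonal (fun i => φ (a i)) * B') =
        B * ((diagonal a + ν) * diagonal (fun i => φ (a i)) * B') := by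
      rw [hxe]
      calc _ = B * (diagonal a + ν) * (B' * B) * diagonal (fun i => φ (a i)) * B' := by
            simp only [mul_assoc]
        _ = _ := by rw [hB', mul_one]; simp only [mul_assoc]
    rw [e1, Matrix.trace_mul_comm, mul_assoc, hB', mul_one, add_mul, trace_add,
      diagonal_mul_diagonal] at h
    have hnil : IsNilpotent (ν * diagonal (fun i => φ (a i))) := by
      refine Commute.isNilpotent_mul_right ?_ hν
      show ν * _ = _ * ν
      ext i j
      rw [Matrix.mul_diagonal, Matrix.diagonal_mul]
      have e := congrFun (congrFun hc.eq i) j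
      rw [Matrix.mul_diagonal, Matrix.diagonal_mul] at e
      by_cases h' : ν i j = 0
      · rw [h', zero_mul, mul_zero]
      · have : a j = a i := mul_left_cancel₀ h' (by rw [e, mul_comm])
        rw [this, mul_comm]
    rw [(Matrix.isNilpotent_trace_of_isNilpotent hnil).eq_zero, add_zero] at h
    simpa [Matrix.trace] using h
  have ha : ∀ i, a i = 0 := by
    intro i
    rw [← Module.forall_dual_apply_eq_zero_iff ℚ]
    intro f
    have h := htr ((algebraMap ℚ F : ℚ →+ F).comp f.toAddMonoidHom)
    have h' := congrArg f h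
    rw [map_sum, map_zero] at h'
    have e : ∀ j, f (a j * ((algebraMap ℚ F : ℚ →+ F).comp f.toAddMonoidHom) (a j)) = f (a j) * f (a j) := by
      intro j
      have : a j * ((algebraMap ℚ F : ℚ →+ F).comp f.toAddMonoidHom) (a j) = f (a j) • a j := by
        rw [Algebra.smul_def, mul_comm]; rfl
      rw [this, map_smul, smul_eq_mul]
    rw [Finset.sum_congr rfl fun j _ => e j] at h'
    have := (Finset.sum_eq_zero_iff_of_nonneg fun j _ => mul_self_nonneg (f (a j))).1 h' i
      (Finset.mem_univ i)
    exact mul_self_eq_zero.1 this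
  have hd : diagonal a = (0 : Matrix ι ι F) := by
    rw [show a = 0 from funext ha]; exact diagonal_zero
  obtain ⟨k, hk⟩ := hν
  refine ⟨k + 1, ?_⟩
  rw [hd, zero_add] at hxe
  have hp : ∀ m : ℕ, x ^ (m + 1) = B * ν ^ (m + 1) * B' := by
    intro m
    induction m with
    | zero => simpa using hxe
    | succ m ih =>
      rw [pow_succ x, ih, hxe]
      calc _ = B * ν ^ (m + 1) * (B' * B) * ν * B' := by simp only [mul_assoc]
        _ = _ := by rw [hB', mul_one, pow_succ ν (m + 1)]; simp only [mul_assoc]
  rw [hp, pow_succ, hk, zero_mul, mul_zero, zero_mul]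

end Pool.Agent.D0H93.MT
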